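import Pool.Agent.V8H99.AD.Param

/-!
Arithmetic of the parameters.
-/

set_option autoImplicit false

namespace Pool.Agent.V8H95.MF

open Pool.Agent.V8H99.AD (scl scl_ge)

theorem small (d : ℕ) (hd : 3 ≤ d) (k' p k1 : ℝ) (hk' : 0 < k') (hp : 0 < p) (hk1 : 0 < k1) :
    ∃ l0 : ℝ, 0 < l0 ∧ ∀ lam : ℝ, 0 < lam → lam ≤ l0 → ∀ κ : ℝ, 0 < κ → κ ≤ 1 →
      1 / scl d k' (p / lam) ≤ κ → lam * κ ^ ((d : ℝ) / 2) ≤ k1 * κ ^ 2 := by
  refine ⟨min k1 (p * Real.exp (-(k' * p ^ 2 / k1 ^ 2 + 1))), by positivity, ?_⟩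
  intro lam hlam hl κ hκ hκ1 hκl
  have hl1 : lam ≤ k1 := hl.trans (min_le_left _ _)
  have hl2 : lam ≤ p * Real.exp (-(k' * p ^ 2 / k1 ^ 2 + 1)) := hl.trans (min_le_right _ _)
  rcases Nat.lt_or_ge d 4 with h | h
  · have hd3 : d = 3 := by omega
    subst hd3
    obtain ⟨a, ha⟩ : ∃ a : ℝ, a = k' * p ^ 2 / k1 ^ 2 + 1 := ⟨_, rfl⟩
    rw [← ha] at hl2
    have hr : Real.exp a ≤ p / lam := by
      rw [le_div_iff₀ hlam]
      calc Real.exp a * lam ≤ Real.exp a * (p * Real.exp (-a)) := by gcongr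
        _ = p * (Real.exp a * Real.exp (-a)) := by ring
        _ = p := by rw [← Real.exp_add, add_neg_cancel, Real.exp_zero, mul_one]
    have hlog : a ≤ Real.log (p / lam) := by
      rw [Real.le_log_iff_exp_le (by positivity)]
      exact hr
    have ha0 : 0 < a := by rw [ha]; positivity
    have hlog0 : 0 < Real.log (p / lam) := by linarith
    have e1 : 1 / scl 3 k' (p / lam) = Real.log (p / lam) * lam ^ 2 / (k' * p ^ 2) := by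
      unfold Pool.Agent.V8H99.AD.scl
      rw [if_pos rfl]
      field_simp
    rw [e1, div_le_iff₀ (by positivity)] at hκl
    have h2 : lam ^ 2 ≤ k1 ^ 2 * κ := by
      have h3 : a * lam ^ 2 ≤ κ * (k' * p ^ 2) := le_trans (by gcongr) hκl
      have h4 : k' * p ^ 2 ≤ k1 ^ 2 * a := by
        rw [ha]
        have : k1 ^ 2 * (k' * p ^ 2 / k1 ^ 2 + 1) = k' * p ^ 2 + k1 ^ 2 := by field_simp
        rw [this]
        nlinarith [sq_nonneg k1]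
      have h5 : a * lam ^ 2 ≤ a * (k1 ^ 2 * κ) := by
        calc a * lam ^ 2 ≤ κ * (k' * p ^ 2) := h3
          _ ≤ κ * (k1 ^ 2 * a) := by gcongr
          _ = _ := by ring
      exact le_of_mul_le_mul_left h5 ha0
    have h3 : κ ^ (((3 : ℕ) : ℝ) / 2) = κ * Real.sqrt κ := by
      rw [Real.sqrt_eq_rpow]
      have : (((3 : ℕ) : ℝ) / 2) = 1 + 1 / 2 := by norm_num
      rw [this, Real.rpow_add hκ, Real.rpow_one]
    have h4 : lam ≤ k1 * Real.sqrt κ := by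
      have h5 : lam ^ 2 ≤ (k1 * Real.sqrt κ) ^ 2 := by
        rw [mul_pow, Real.sq_sqrt hκ.le]
        exact h2
      exact (pow_le_pow_iff_left₀ hlam.le (by positivity) two_ne_zero).1 h5
    rw [h3]
    calc lam * (κ * Real.sqrt κ) ≤ (k1 * Real.sqrt κ) * (κ * Real.sqrt κ) := by gcongr
      _ = k1 * κ * (Real.sqrt κ) ^ 2 := by ring
      _ = k1 * κ ^ 2 := by rw [Real.sq_sqrt hκ.le]; ring
  · have hd0 : (4 : ℝ) ≤ d := by exact_mod_cast h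
    have hsκ : κ ^ ((d : ℝ) / 2) ≤ κ ^ 2 := by
      rw [← Real.rpow_natCast κ 2]
      apply Real.rpow_le_rpow_of_exponent_ge hκ hκ1
      push_cast
      linarith
    have : 0 < κ ^ ((d : ℝ) / 2) := Real.rpow_pos_of_pos hκ _
    gcongr

theorem scl_comp (d : ℕ) (k' p : ℝ) (hk' : 0 < k') (hp : 0 < p) (hp1 : p ≤ 1) :
    ∃ k0 : ℝ, 0 < k0 ∧ ∀ k : ℝ, 0 < k → k ≤ k0 → ∀ lam : ℝ, 0 < lam → lam * 3 ≤ p →
      scl d k (1 / lam) ≤ scl d k' (p / lam) := by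
  refine ⟨min (k' * p ^ 2) (min (k' * p) (k' * p ^ ((d : ℝ) / 2))), by positivity, ?_⟩
  intro k hk hkk lam hlam hlp
  have h1 : k ≤ k' * p ^ 2 := hkk.trans (min_le_left _ _)
  have h2 : k ≤ k' * p := hkk.trans ((min_le_right _ _).trans (min_le_left _ _))
  have h3 : k ≤ k' * p ^ ((d : ℝ) / 2) := hkk.trans ((min_le_right _ _).trans (min_le_right _ _))
  have hr : 3 ≤ p / lam := by rw [le_div_iff₀ hlam]; linarith
  have hpl : p / lam ≤ 1 / lam := by gcongr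
  unfold Pool.Agent.V8H99.AD.scl
  split_ifs with h4 h5
  · have hl : 0 < Real.log (p / lam) := Real.log_pos (by linarith)
    have hl2 : Real.log (p / lam) ≤ Real.log (1 / lam) := Real.log_le_log (by positivity) hpl
    apply div_le_div₀ (by positivity) _ hl hl2
    calc k * (1 / lam) ^ 2 ≤ k' * p ^ 2 * (1 / lam) ^ 2 := by gcongr
      _ = k' * (p / lam) ^ 2 := by ring
  · apply Real.exp_le_exp.2
    calc k * (1 / lam) ≤ k' * p * (1 / lam) := by gcongr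
      _ = k' * (p / lam) := by ring
  · apply Real.exp_le_exp.2
    have e : (p / lam) ^ ((d : ℝ) / 2) = p ^ ((d : ℝ) / 2) * (1 / lam) ^ ((d : ℝ) / 2) := by
      rw [← Real.mul_rpow hp.le (by positivity)]
      congr 1
      ring
    rw [e]
    calc k * (1 / lam) ^ ((d : ℝ) / 2) ≤ k' * p ^ ((d : ℝ) / 2) * (1 / lam) ^ ((d : ℝ) / 2) := by
          gcongr
      _ = _ := by ring

theorem arith_n (θ κ y L : ℝ) (hθ : 0 < θ) (hθ1 : θ ≤ 1) (hκ : 0 < κ) (hκr : κ ≤ θ ^ 2 / 4)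
    (hy : 1 / κ ≤ y) (hL : y ≤ L) (b : ℝ) (hb : 16 ≤ b) :
    ∃ n n' : ℕ, 1 ≤ n' ∧ n' ≤ n ∧ (n : ℝ) ≤ θ ^ 2 / (2 * κ ^ 2) ∧
      (θ ^ 2 / 2 / κ) ^ 2 ≤ (n' : ℝ) ∧
      (n' : ℝ) * (1 / (2 * n + 1) + 1 / L ^ 2) ≤ θ ^ 2 ∧
      ((2 * n : ℕ) : ℝ) * (4 * κ ^ 2 + 12 * (y ^ 2)⁻¹) ≤ b * θ ^ 2 := by
  have hz : 2 ≤ θ ^ 2 / 2 / κ := by rw [le_div_iff₀ hκ]; linarith
  have hz2 : 2 ≤ (θ ^ 2 / 2 / κ) ^ 2 := by nlinarith
  have hy0 : 0 < y := lt_of_lt_of_le (by positivity) hy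
  have hL0 : 0 < L := by linarith
  have hθ2 : 0 < θ ^ 2 := by positivity
  have hθ21 : θ ^ 2 ≤ 1 := pow_le_one₀ hθ.le hθ1
  have hx0 : 0 ≤ θ ^ 2 / (2 * κ ^ 2) := by positivity
  obtain ⟨n, hn⟩ : ∃ n : ℕ, n = ⌊θ ^ 2 / (2 * κ ^ 2)⌋₊ := ⟨_, rfl⟩
  obtain ⟨n', hn'⟩ : ∃ n' : ℕ, n' = ⌊θ ^ 2 * n⌋₊ := ⟨_, rfl⟩
  have h1 : (n : ℝ) ≤ θ ^ 2 / (2 * κ ^ 2) := by rw [hn]; exact Nat.floor_le hx0
  have h2 : θ ^ 2 / (2 * κ ^ 2) - 1 < n := by rw [hn]; exact Nat.sub_one_lt_floor _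
  have h3 : (n' : ℝ) ≤ θ ^ 2 * n := by rw [hn']; exact Nat.floor_le (by positivity)
  have h4 : θ ^ 2 * n - 1 < n' := by rw [hn']; exact Nat.sub_one_lt_floor _
  have h5 : (θ ^ 2 / 2 / κ) ^ 2 ≤ (n' : ℝ) := by
    have e : θ ^ 2 * (θ ^ 2 / (2 * κ ^ 2)) = 2 * (θ ^ 2 / 2 / κ) ^ 2 := by field_simp
    have h6 : θ ^ 2 * (θ ^ 2 / (2 * κ ^ 2) - 1) ≤ θ ^ 2 * n := by gcongr
    have h7 : θ ^ 2 * (θ ^ 2 / (2 * κ ^ 2) - 1) = 2 * (θ ^ 2 / 2 / κ) ^ 2 - θ ^ 2 := by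
      rw [mul_sub, e, mul_one]
    rw [h7] at h6
    linarith
  have h6 : 1 ≤ n' := by
    have : (1 : ℝ) ≤ n' := by linarith
    exact_mod_cast this
  have hnn : (n' : ℝ) ≤ n := by
    have : θ ^ 2 * (n : ℝ) ≤ 1 * n := by gcongr
    linarith
  have hnκ : (n : ℝ) ≤ θ ^ 2 / 2 * y ^ 2 := by
    have h8 : 1 / κ ^ 2 ≤ y ^ 2 := by
      have := pow_le_pow_left₀ (by positivity) hy 2
      rwa [div_pow, one_pow] at this
    calc (n : ℝ) ≤ θ ^ 2 / (2 * κ ^ 2) := h1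
      _ = θ ^ 2 / 2 * (1 / κ ^ 2) := by field_simp
      _ ≤ _ := by gcongr
  have hLy : y ^ 2 ≤ L ^ 2 := by nlinarith
  have hnL : (n : ℝ) / L ^ 2 ≤ θ ^ 2 / 2 := by
    rw [div_le_iff₀ (by positivity)]
    refine hnκ.trans ?_
    gcongr
  refine ⟨n, n', h6, by exact_mod_cast hnn, h1, h5, ?_, ?_⟩
  · have h8 : (n' : ℝ) * (1 / (2 * n + 1)) ≤ θ ^ 2 / 2 := by
      rw [mul_one_div, div_le_iff₀ (by positivity)]
      nlinarith
    have h9 : (n' : ℝ) * (1 / L ^ 2) ≤ θ ^ 2 / 2 := by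
      rw [mul_one_div]
      refine le_trans ?_ hnL
      gcongr
    rw [mul_add]
    linarith
  · push_cast
    have h8 : (n : ℝ) * κ ^ 2 ≤ θ ^ 2 / 2 := by
      rw [le_div_iff₀ (by positivity)] at h1
      linarith
    have h9 : (n : ℝ) * (y ^ 2)⁻¹ ≤ θ ^ 2 / 2 := by
      rw [← div_eq_mul_inv, div_le_iff₀ (by positivity)]
      exact hnκ
    have e : 2 * (n : ℝ) * (4 * κ ^ 2 + 12 * (y ^ 2)⁻¹) = 8 * (n * κ ^ 2) + 24 * (n * (y ^ 2)⁻¹) := by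
      ring
    rw [e]
    nlinarith

theorem arith_par (d : ℕ) (hd : 3 ≤ d) (N0 : ℕ) (δ θ b C k' K' : ℝ) (hδ : 0 < δ) (hδ1 : δ ≤ 1)
    (hθ : 0 < θ) (hθ1 : θ ≤ 1) (hb : 16 ≤ b) (hC : 1 ≤ C) (hk' : 0 < k') (hK' : 3 ≤ K') :
    ∃ k : ℝ, 0 < k ∧ k ≤ 1 ∧ ∀ lam : ℝ, 0 < lam → lam ≤ k → ∀ ℓ : ℝ, ℓ = scl d k' (θ / 4 / lam) →
      K' * lam ≤ θ / 4 ∧ 1 ≤ ℓ ∧ scl d k (1 / lam) ≤ ℓ ∧ 0 < scl d k (1 / lam) ∧
      ∀ κ : ℝ, 1 / ℓ ≤ κ → κ ≤ k → ∀ t : ℝ, |t| ≤ k / (lam * κ ^ ((d : ℝ) / 2)) →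
      ∃ L R N n n' : ℕ, 1 ≤ L ∧ ℓ ≤ (L : ℝ) ∧
        (L : ℝ) ≤ 2 * ℓ ^ (((N0 + d + 3) * d + 1) + 2) ∧ ℓ ^ N0 ≤ R ∧
        2 * (R + N) < L ∧ 2 * (R + 1) < L ∧ 24 * ((4 * d + 1) * |t|) ≤ N ∧
        1 ≤ n' ∧ n' ≤ n ∧ (n' : ℝ) * (1 / (2 * n + 1) + 1 / (L : ℝ) ^ 2) ≤ θ ^ 2 ∧
        ((2 * n : ℕ) : ℝ) * (4 * κ ^ 2 + 12 * (ℓ ^ 2)⁻¹) ≤ b * θ ^ 2 ∧
        4 * C * (lam * (n + |t|)) ^ 2 / (n' : ℝ) ^ ((d : ℝ) / 2) ≤ δ / 4 ∧
        12 * (L : ℝ) ^ d * (ℓ ^ ((N0 + d + 3) * d + 1))⁻¹ ≤ δ / 4 ∧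
        8 * Real.exp (-(N : ℝ)) ^ 2 ≤ δ / 4 := by
  have hd0 : (3 : ℝ) ≤ d := by exact_mod_cast hd
  obtain ⟨Y, hY⟩ : ∃ Y : ℝ, Y = 200 * (d + 1) * 2 ^ d / δ := ⟨_, rfl⟩
  have hY0 : 0 < Y := by rw [hY]; positivity
  have h2d : (1 : ℝ) ≤ 2 ^ d := one_le_pow₀ (by norm_num)
  have hYd : 200 * (d + 1) ≤ Y := by
    rw [hY, le_div_iff₀ hδ]
    calc 200 * ((d : ℝ) + 1) * δ ≤ 200 * ((d : ℝ) + 1) * 1 := by gcongr
      _ ≤ 200 * ((d : ℝ) + 1) * 2 ^ d := by gcongr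
  have hYδ : 800 * 2 ^ d / δ ≤ Y := by
    rw [hY]
    gcongr
    linarith
  obtain ⟨r, hr⟩ : ∃ r : ℝ, r = θ ^ 2 / 2 := ⟨_, rfl⟩
  have hr0 : 0 < r := by rw [hr]; positivity
  obtain ⟨k1, hk1⟩ : ∃ k1 : ℝ, k1 = min (min 1 (k' * (θ / 4))) (min (r / 2) (δ * r ^ d / (64 * C))) :=
    ⟨_, rfl⟩
  have hk10 : 0 < k1 := by rw [hk1]; positivity
  obtain ⟨l0, hl0, hsm⟩ := small d hd k' (θ / 4) k1 hk' (by positivity) hk10
  obtain ⟨k0, hk0, hcomp⟩ := scl_comp d k' (θ / 4) hk' (by positivity) (by linarith)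
  obtain ⟨k, hk⟩ : ∃ k : ℝ, k = min (min k1 l0) (min k0 (min (θ / 4 / (K' + 3))
      (k' * (θ / 4) / Y))) := ⟨_, rfl⟩
  have hkpos : 0 < k := by rw [hk]; positivity
  have hkk1 : k ≤ k1 := by rw [hk]; exact (min_le_left _ _).trans (min_le_left _ _)
  have hkl0 : k ≤ l0 := by rw [hk]; exact (min_le_left _ _).trans (min_le_right _ _)
  have hkk0 : k ≤ k0 := by rw [hk]; exact (min_le_right _ _).trans (min_le_left _ _)
  have hkK : k ≤ θ / 4 / (K' + 3) := by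
    rw [hk]; exact (min_le_right _ _).trans ((min_le_right _ _).trans (min_le_left _ _))
  have hkY : k ≤ k' * (θ / 4) / Y := by
    rw [hk]; exact (min_le_right _ _).trans ((min_le_right _ _).trans (min_le_right _ _))
  have h11 : k1 ≤ 1 := by rw [hk1]; exact (min_le_left _ _).trans (min_le_left _ _)
  have h12 : k1 ≤ k' * (θ / 4) := by rw [hk1]; exact (min_le_left _ _).trans (min_le_right _ _)
  have h13 : k1 ≤ r / 2 := by rw [hk1]; exact (min_le_right _ _).trans (min_le_left _ _)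
  have h14 : k1 ≤ δ * r ^ d / (64 * C) := by
    rw [hk1]; exact (min_le_right _ _).trans (min_le_right _ _)
  have hk1' : k ≤ 1 := hkk1.trans h11
  refine ⟨k, hkpos, hk1', ?_⟩
  intro lam hlam hlamk ℓ hℓ
  have hK3 : K' * lam ≤ θ / 4 ∧ 3 ≤ θ / 4 / lam := by
    have h1 := hlamk.trans hkK
    rw [le_div_iff₀ (by positivity)] at h1
    have h2 : lam * (K' + 3) = K' * lam + 3 * lam := by ring
    have h3 : 0 < K' * lam := by positivity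
    rw [h2] at h1
    constructor
    · linarith
    · rw [le_div_iff₀ hlam]
      linarith
  have hℓr : k' * (θ / 4 / lam) ≤ ℓ := by
    rw [hℓ]
    exact scl_ge d hd k' _ hk' hK3.2
  have hℓY : Y ≤ ℓ := by
    refine le_trans ?_ hℓr
    have h1 := hlamk.trans hkY
    rw [le_div_iff₀ hY0] at h1
    rw [← mul_div_assoc, le_div_iff₀ hlam]
    linarith
  have hℓd : 200 * (d + 1) ≤ ℓ := hYd.trans hℓY
  have hℓ800 : 800 ≤ ℓ := by linarith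
  have hℓ0 : 0 < ℓ := by linarith
  have hℓ1 : 1 ≤ ℓ := by linarith
  have hℓδ : 800 * 2 ^ d ≤ δ * ℓ := by
    have := hYδ.trans hℓY
    rw [div_le_iff₀ hδ] at this
    linarith
  have hℓδ' : 800 ≤ δ * ℓ := by linarith
  have hlam3 : lam * 3 ≤ θ / 4 := by
    have := hK3.2
    rw [le_div_iff₀ hlam] at this
    linarith
  have hlampos : 0 < scl d k (1 / lam) := by
    have h1 : 3 ≤ 1 / lam := by
      rw [le_div_iff₀ hlam]
      linarith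
    exact lt_of_lt_of_le (by positivity) (scl_ge d hd k _ hkpos h1)
  refine ⟨hK3.1, hℓ1, by rw [hℓ]; exact hcomp k hkpos hkk0 lam hlam hlam3, hlampos, ?_⟩
  intro κ hκℓ hκk t ht
  have hκ : 0 < κ := lt_of_lt_of_le (by positivity) hκℓ
  have hκ1 : κ ≤ 1 := hκk.trans hk1'
  have hκy : 1 / κ ≤ ℓ := by
    rw [div_le_iff₀ hℓ0] at hκℓ
    rw [div_le_iff₀ hκ]
    linarith
  -- the power of κ
  have hsmall := hsm lam hlam (hlamk.trans hkl0) κ hκ hκ1 (by rw [← hℓ]; exact hκℓ)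
  obtain ⟨s, hs⟩ : ∃ s : ℝ, s = κ ^ ((d : ℝ) / 2) := ⟨_, rfl⟩
  have hs0 : 0 < s := by rw [hs]; exact Real.rpow_pos_of_pos hκ _
  have hs2 : s ^ 2 = κ ^ d := by
    rw [hs, ← Real.rpow_natCast, ← Real.rpow_mul hκ.le, ← Real.rpow_natCast]
    congr 1
    push_cast
    ring
  have hsd : κ ^ d ≤ s := by
    rw [hs, ← Real.rpow_natCast κ d]
    apply Real.rpow_le_rpow_of_exponent_ge hκ hκ1
    linarith
  rw [← hs] at ht hsmall
  have hkl : k / lam ≤ ℓ := by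
    rw [div_le_iff₀ hlam]
    have h1 : k' * (θ / 4) ≤ ℓ * lam := by
      rw [← mul_div_assoc, div_le_iff₀ hlam] at hℓr
      exact hℓr
    linarith
  have htw : |t| ≤ ℓ ^ (d + 1) := by
    refine ht.trans ?_
    have h2 : 1 / s ≤ ℓ ^ d := by
      calc 1 / s ≤ 1 / κ ^ d := by gcongr
        _ = (1 / κ) ^ d := by rw [div_pow, one_pow]
        _ ≤ ℓ ^ d := by gcongr
    calc k / (lam * s) = 1 / s * (k / lam) := by field_simp
      _ ≤ ℓ ^ d * ℓ := by gcongr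
      _ = ℓ ^ (d + 1) := by ring
  -- the naturals
  obtain ⟨A, hA⟩ : ∃ A : ℝ, A = ℓ ^ (N0 + d + 1) := ⟨_, rfl⟩
  have hAN : ℓ ^ N0 ≤ A := by rw [hA]; exact pow_le_pow_right₀ hℓ1 (by omega)
  have hAd : ℓ ^ (d + 1) ≤ A := by rw [hA]; exact pow_le_pow_right₀ hℓ1 (by omega)
  have hAℓ : ℓ ≤ A := by
    refine le_trans ?_ hAd
    calc ℓ = ℓ ^ 1 := (pow_one ℓ).symm
      _ ≤ _ := pow_le_pow_right₀ hℓ1 (by omega)
  have hA0 : 0 < A := by linarith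
  have htA : |t| ≤ A := htw.trans hAd
  obtain ⟨L, hL⟩ : ∃ L : ℕ, L = ⌈A * ℓ ^ 2⌉₊ := ⟨_, rfl⟩
  obtain ⟨R, hR⟩ : ∃ R : ℕ, R = ⌈A⌉₊ := ⟨_, rfl⟩
  obtain ⟨N, hN⟩ : ∃ N : ℕ, N = ⌈24 * (4 * d + 1) * A⌉₊ := ⟨_, rfl⟩
  have hL1 : A * ℓ ^ 2 ≤ (L : ℝ) := by rw [hL]; exact Nat.le_ceil _
  have hL2 : (L : ℝ) < A * ℓ ^ 2 + 1 := by rw [hL]; exact Nat.ceil_lt_add_one (by positivity)
  have hR1 : A ≤ R := by rw [hR]; exact Nat.le_ceil _
  have hR2 : (R : ℝ) < A + 1 := by rw [hR]; exact Nat.ceil_lt_add_one hA0.le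
  have hN1 : 24 * (4 * d + 1) * A ≤ N := by rw [hN]; exact Nat.le_ceil _
  have hN2 : (N : ℝ) < 24 * (4 * d + 1) * A + 1 := by
    rw [hN]; exact Nat.ceil_lt_add_one (by positivity)
  have hℓ2 : 1 ≤ ℓ ^ 2 := one_le_pow₀ hℓ1
  have hAL : A ≤ (L : ℝ) := by
    refine le_trans ?_ hL1
    calc A = A * 1 := (mul_one A).symm
      _ ≤ A * ℓ ^ 2 := by gcongr
  have hcA : A ≤ 24 * (4 * d + 1) * A := by
    calc A = 1 * A := (one_mul A).symm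
      _ ≤ 24 * (4 * d + 1) * A := by gcongr; linarith
  have hℓL : ℓ ≤ (L : ℝ) := hAℓ.trans hAL
  have hLpos : 1 ≤ L := by
    have : (1 : ℝ) ≤ L := by linarith
    exact_mod_cast this
  have hN1' : 1 ≤ N := by
    have : (1 : ℝ) ≤ N := by linarith
    exact_mod_cast this
  have hRN : 2 * (R + N) < L := by
    have h1 : 2 * ((R : ℝ) + N) < 2 * (A + 1 + (24 * (4 * d + 1) * A + 1)) := by linarith
    have h2 : 2 * (A + 1 + (24 * (4 * d + 1) * A + 1)) ≤ (200 * (d + 1)) * A := by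
      have e1 : (200 * ((d : ℝ) + 1)) * A - 2 * (A + 1 + (24 * (4 * d + 1) * A + 1)) =
        8 * (d * A) + 150 * A - 4 := by ring
      have e2 : 0 ≤ d * A := by positivity
      linarith
    have h3 : (200 * ((d : ℝ) + 1)) * A ≤ A * ℓ ^ 2 := by
      have : 200 * ((d : ℝ) + 1) ≤ ℓ ^ 2 := by
        calc 200 * ((d : ℝ) + 1) ≤ ℓ * 1 := by linarith
          _ ≤ ℓ * ℓ := by gcongr
          _ = ℓ ^ 2 := by ring
      calc (200 * ((d : ℝ) + 1)) * A ≤ ℓ ^ 2 * A := by gcongr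
        _ = A * ℓ ^ 2 := by ring
    have : (2 : ℝ) * (R + N) < L := by linarith
    exact_mod_cast this
  have hLpow : (L : ℝ) ≤ 2 * ℓ ^ (N0 + d + 3) := by
    have h1 : ℓ ^ (N0 + d + 3) = A * ℓ ^ 2 := by rw [hA]; ring
    rw [h1]
    have : 1 ≤ A * ℓ ^ 2 := by
      calc (1 : ℝ) = 1 * 1 := (mul_one 1).symm
        _ ≤ A * ℓ ^ 2 := by gcongr; linarith
    linarith
  obtain ⟨n, n', hn1, hn2, hn3, hn4, hn5, hn6⟩ := arith_n θ κ ℓ L hθ hθ1 hκ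
    (by rw [hr] at h13; linarith [hκk.trans hkk1]) hκy hℓL b hb
  refine ⟨L, R, N, n, n', hLpos, hℓL, ?_, hAN.trans hR1, hRN, by omega, ?_, hn1, hn2, hn5, hn6,
    ?_, ?_, ?_⟩
  · refine hLpow.trans ?_
    have : N0 + d + 3 ≤ ((N0 + d + 3) * d + 1) + 2 := by
      have := Nat.le_mul_of_pos_right (N0 + d + 3) (show 0 < d by omega)
      omega
    gcongr
  · refine le_trans ?_ hN1
    calc 24 * ((4 * (d : ℝ) + 1) * |t|) = 24 * (4 * (d : ℝ) + 1) * |t| := by ring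
      _ ≤ 24 * (4 * (d : ℝ) + 1) * A := by gcongr
  · -- the variance term
    have hnum : lam * (n + |t|) ≤ 2 * k1 / s := by
      have h2 : lam * |t| ≤ k1 / s := by
        calc lam * |t| ≤ lam * (k / (lam * s)) := by gcongr
          _ = k / s := by field_simp
          _ ≤ k1 / s := by gcongr
      have h3 : lam * n ≤ k1 / s := by
        rw [le_div_iff₀ hs0]
        calc lam * (n : ℝ) * s = (lam * s) * n := by ring
          _ ≤ (k1 * κ ^ 2) * (θ ^ 2 / (2 * κ ^ 2)) := by gcongr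
          _ = k1 * (θ ^ 2 / 2) := by field_simp
          _ ≤ k1 * 1 := by
              gcongr
              have := pow_le_one₀ (n := 2) hθ.le hθ1
              linarith
          _ = k1 := mul_one _
      calc lam * (n + |t|) = lam * n + lam * |t| := by ring
        _ ≤ k1 / s + k1 / s := by linarith
        _ = 2 * k1 / s := by ring
    have hden : (r / κ) ^ d ≤ (n' : ℝ) ^ ((d : ℝ) / 2) := by
      have h1 : ((r / κ) ^ 2) ^ ((d : ℝ) / 2) = (r / κ) ^ d := by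
        rw [← Real.rpow_natCast (r / κ) 2, ← Real.rpow_mul (by positivity),
          ← Real.rpow_natCast (r / κ) d]
        congr 1
        push_cast
        ring
      rw [← h1]
      rw [hr]
      gcongr
    have hden0 : 0 < (r / κ) ^ d := by positivity
    have h0 : 0 ≤ lam * (n + |t|) := by positivity
    calc 4 * C * (lam * (n + |t|)) ^ 2 / (n' : ℝ) ^ ((d : ℝ) / 2)
        ≤ 4 * C * (2 * k1 / s) ^ 2 / (r / κ) ^ d := by gcongr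
      _ = 16 * C * k1 ^ 2 / r ^ d := by
        rw [div_pow, div_pow, hs2]
        field_simp
        ring
      _ ≤ 16 * C * (k1 * 1) / r ^ d := by
        rw [pow_two]
        gcongr
      _ ≤ 16 * C * (δ * r ^ d / (64 * C) * 1) / r ^ d := by gcongr
      _ = δ / 4 := by field_simp; norm_num
  · have h1 : (L : ℝ) ^ d ≤ 2 ^ d * ℓ ^ ((N0 + d + 3) * d) := by
      calc (L : ℝ) ^ d ≤ (2 * ℓ ^ (N0 + d + 3)) ^ d := by gcongr
        _ = _ := by rw [mul_pow, ← pow_mul]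
    calc 12 * (L : ℝ) ^ d * (ℓ ^ ((N0 + d + 3) * d + 1))⁻¹
        ≤ 12 * (2 ^ d * ℓ ^ ((N0 + d + 3) * d)) * (ℓ ^ ((N0 + d + 3) * d + 1))⁻¹ := by gcongr
      _ = 12 * 2 ^ d / ℓ := by
        rw [pow_succ ℓ ((N0 + d + 3) * d)]
        have : ℓ ^ ((N0 + d + 3) * d) ≠ 0 := by positivity
        field_simp
      _ ≤ δ / 4 := by
        rw [div_le_iff₀ hℓ0]
        linarith
  · have h1 : ℓ ≤ N := by
      refine le_trans ?_ hN1
      linarith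
    have h2 := Real.add_one_le_exp (N : ℝ)
    have h3 : Real.exp (-(N : ℝ)) ≤ 1 / ℓ := by
      rw [Real.exp_neg, ← one_div]
      apply one_div_le_one_div_of_le hℓ0
      linarith
    have h4 : Real.exp (-(N : ℝ)) ≤ 1 := by
      apply Real.exp_le_one_iff.2
      simp
    have h5 : Real.exp (-(N : ℝ)) ^ 2 ≤ 1 / ℓ := by
      have := Real.exp_pos (-(N : ℝ))
      calc Real.exp (-(N : ℝ)) ^ 2 = Real.exp (-(N : ℝ)) * Real.exp (-(N : ℝ)) := by ring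
        _ ≤ Real.exp (-(N : ℝ)) * 1 := by gcongr
        _ ≤ 1 / ℓ := by rw [mul_one]; exact h3
    have h6 : 8 * (1 / ℓ) ≤ δ / 4 := by
      rw [mul_one_div, div_le_iff₀ hℓ0]
      linarith
    linarith

end Pool.Agent.V8H95.MF
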