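import Pool.Agent.V8H95.MF.Lift
import Pool.Agent.V8H95.MF.Par

/-!
The final theorem for square-summable functions on `ℤ^d`.
-/

set_option autoImplicit false
set_option linter.unusedSectionVars false

open Complex MeasureTheory
open scoped BigOperators ComplexConjugate ENNReal

namespace Pool.Agent.V8H95.MF

open Pool.Agent.H4R2.AE Pool.Agent.V8H99.AD

variable {d L : ℕ} [NeZero L]

theorem gd_of_mass {lam p E m : ℝ} {V w : T d L → ℝ} (h0 : 0 ≤ lam) (h1 : lam ≤ 1) (hp0 : 0 ≤ p)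
    (hp1 : p ≤ 1 / 8) (hE : |E| ≤ lam) (hV : ∀ x, |V x| ≤ 1) (hw : ∀ x, |w x| ≤ p)
    (hm0 : 1 / (L : ℝ) ^ 2 ≤ m) (hm1 : m ≤ 1) (h : MassEq lam E m V w) :
    ∃ ψ : T d L → ℝ, Gd lam (E - 2 * m) (4 * p) m V ψ := by
  have hm : 0 < m := lt_of_lt_of_le (L_sq (L := L)).1 hm0
  have heq : ∀ x, Hop lam V (fun y => Real.exp (w y) * Real.exp p) x =
      (E - m * w x) * (Real.exp (w x) * Real.exp p) := by
    intro x
    have h2 := mass_eq' h x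
    unfold Hop
    have h3 : ∑ i : Fin d, (2 * (Real.exp (w x) * Real.exp p) -
        Real.exp (w (x + Pi.single i 1)) * Real.exp p -
        Real.exp (w (x - Pi.single i 1)) * Real.exp p) =
        (∑ i : Fin d, ((Real.exp (w x) - Real.exp (w (x + Pi.single i 1))) +
        (Real.exp (w x) - Real.exp (w (x - Pi.single i 1))))) * Real.exp p := by
      rw [Finset.sum_mul]
      exact Finset.sum_congr rfl fun i _ => by ring
    rw [h3]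
    linear_combination Real.exp p * h2
  have hψ0 : ∀ x, 0 < Real.exp (w x) * Real.exp p := fun x => by positivity
  refine ⟨fun x => Real.exp (w x) * Real.exp p, h0, h1, hV, fun x => ?_, fun x => ?_, by positivity,
    by linarith, fun x => ?_, fun x => ?_, hm0, hm1, ?_⟩
  · rw [← Real.exp_add]
    apply Real.one_le_exp
    linarith [(abs_le.1 (hw x)).1]
  · rw [← Real.exp_add]
    have h3 : w x + p ≤ 2 * p := by linarith [(abs_le.1 (hw x)).2]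
    have h4 : Real.exp (2 * p) ≤ 1 + 4 * p := by
      have h5 := Real.exp_bound_div_one_sub_of_interval (x := 2 * p) (by linarith) (by linarith)
      refine h5.trans ?_
      rw [div_le_iff₀ (by linarith)]
      nlinarith
    exact (Real.exp_le_exp.2 h3).trans h4
  · rw [heq]
    apply mul_le_mul_of_nonneg_right _ (hψ0 x).le
    have h3 : m * w x ≤ m * 1 := by
      apply mul_le_mul_of_nonneg_left _ hm.le
      linarith [(abs_le.1 (hw x)).2]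
    linarith
  · rw [heq]
    apply mul_le_mul_of_nonneg_right _ (hψ0 x).le
    have h3 : m * (-1) ≤ m * w x := by
      apply mul_le_mul_of_nonneg_left _ hm.le
      linarith [(abs_le.1 (hw x)).1]
    linarith
  · have hE' := abs_le.1 hE
    rw [abs_le]
    constructor <;> linarith

/-- the kinetic energy -/
noncomputable def kinF (u : (Fin d → ℤ) → ℂ) : ℝ :=
  ∑' x, ∑ i : Fin d, ‖u (x + Pi.single i 1) - u x‖ ^ 2

theorem kin_summable_aux (g : (Fin d → ℤ) → ℂ) (hg : Summable fun x => ‖g x‖ ^ 2) :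
    Summable fun x => ∑ i : Fin d, ‖g (x + Pi.single i 1) - g x‖ ^ 2 := by
  refine summable_sum fun i _ => ?_
  have h1 : Summable fun x : Fin d → ℤ => ‖g (x + Pi.single i 1)‖ ^ 2 :=
    hg.comp_injective (i := fun x : Fin d → ℤ => x + Pi.single i 1)
      (fun x y h => add_right_cancel h)
  refine Summable.of_nonneg_of_le (fun x => by positivity) (fun x => ?_)
    ((h1.mul_left 2).add (hg.mul_left 2))
  have h2 := norm_sub_le (g (x + Pi.single i 1)) (g x)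
  have h3 := pow_le_pow_left₀ (norm_nonneg _) h2 2
  nlinarith [sq_nonneg (‖g (x + Pi.single i 1)‖ - ‖g x‖)]

theorem kin_summable (f : L2 d) :
    Summable fun x => ∑ i : Fin d, ‖f (x + Pi.single i 1) - f x‖ ^ 2 :=
  kin_summable_aux (f : (Fin d → ℤ) → ℂ) (l2_summable f)

theorem dir_tau (f : L2 d) (R : ℕ) (hf : SuppIn f R) (hL : 2 * (R + 1) < L) :
    Dir (fun y => (tau L f) y) ≤ kinF (f : (Fin d → ℤ) → ℂ) := by
  have h1 : Dir (fun y => (tau L f) y) =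
      ∑ y : T d L, ∑ i : Fin d, ‖f (rep y + Pi.single i 1) - f (rep y)‖ ^ 2 := by
    unfold Dir
    rw [Finset.sum_comm]
    refine Finset.sum_congr rfl fun y _ => Finset.sum_congr rfl fun i _ => ?_
    have h2 := rep_shift hf hL y i 1 (Or.inl rfl)
    simp only [Int.cast_one] at h2
    show ‖(tau L f) y - (tau L f) (y + Pi.single i 1)‖ ^ 2 = _
    have h3 : (tau L f) (y + Pi.single i 1) = f (rep y + Pi.single i 1) := h2
    have h4 : (tau L f) y = f (rep y) := rfl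
    rw [h3, h4, norm_sub_rev]
  rw [h1]
  have h5 : ∑ y : T d L, ∑ i : Fin d, ‖f (rep y + Pi.single i 1) - f (rep y)‖ ^ 2 =
      ∑' y : T d L, ∑ i : Fin d, ‖f (rep y + Pi.single i 1) - f (rep y)‖ ^ 2 :=
    (tsum_fintype _).symm
  rw [h5]
  exact tsum_comp_le_tsum_of_inj (kin_summable f)
    (fun x => Finset.sum_nonneg fun _ _ => by positivity) (rep_injective (d := d) (L := L))

/-- the estimate on `ℤ^d` -/
theorem main (d : ℕ) (hd : 3 ≤ d) (N0 : ℕ) (δ : ℝ) (hδ : 0 < δ) (hδ1 : δ ≤ 1) :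
    ∃ k : ℝ, 0 < k ∧ k ≤ 1 ∧
    ∀ (μ : Measure ℝ) [IsProbabilityMeasure μ], μ (Set.Icc (-1) 1)ᶜ = 0 →
    ∀ lam : ℝ, 0 < lam → lam ≤ k → ∀ κ : ℝ, 1 / scl d k (1 / lam) ≤ κ → κ ≤ k →
    ∀ f : L2 d, (∀ x, f x ≠ 0 → ∀ i, (|x i| : ℝ) ≤ scl d k (1 / lam) ^ N0) →
      kinF (f : (Fin d → ℤ) → ℂ) ≤ κ ^ 2 * ‖f‖ ^ 2 →
      ∀ t : ℝ, |t| ≤ k / (lam * κ ^ ((d : ℝ) / 2)) →
      ∫⁻ ω, ∑' x, ENNReal.ofReal (‖evoF lam ω t (f : (Fin d → ℤ) → ℂ) x -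
        avgF μ lam t (f : (Fin d → ℤ) → ℂ) x‖ ^ 2) ∂(Measure.infinitePi fun _ : Fin d → ℤ => μ) ≤
      ENNReal.ofReal (δ * ‖f‖ ^ 2) := by
  obtain ⟨C, hC, HM⟩ := mf_torus d hd
  set θ : ℝ := Real.sqrt δ / 16 with hθ
  have hsδ : 0 < Real.sqrt δ := Real.sqrt_pos.2 hδ
  have hsδ2 : Real.sqrt δ ^ 2 = δ := Real.sq_sqrt hδ.le
  have hsδ1 : Real.sqrt δ ≤ 1 := by rw [← Real.sqrt_one]; exact Real.sqrt_le_sqrt hδ1
  have hθ0 : 0 < θ := by positivity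
  have hθ16 : θ ≤ 1 / 16 := by rw [hθ]; linarith
  have hθ1 : θ ≤ 1 := by linarith
  have hθ2 : θ ^ 2 = δ / 256 := by rw [hθ, div_pow, hsδ2]; norm_num
  obtain ⟨k', K', hk', hK', HT⟩ := torus_event d hd ((N0 + d + 3) * d + 1)
  have hd0 : (3 : ℝ) ≤ d := by exact_mod_cast hd
  have hb : (16 : ℝ) ≤ bb d := by unfold bb; linarith
  obtain ⟨k, hk0, hk1, HP⟩ := arith_par d hd N0 δ θ (bb d) C k' K' hδ hδ1 hθ0 hθ1 hb hC hk' hK'
  refine ⟨k, hk0, hk1, ?_⟩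
  intro μ _ hμ lam hlam hlamk κ hκe hκk f hf hkin t ht
  have hlam1 : lam ≤ 1 := hlamk.trans hk1
  obtain ⟨ℓ, hℓ⟩ : ∃ ℓ : ℝ, ℓ = scl d k' (θ / 4 / lam) := ⟨_, rfl⟩
  obtain ⟨hKl, hℓ1, hsℓ, hs0, HP2⟩ := HP lam hlam hlamk ℓ hℓ
  have hℓ0 : 0 < ℓ := by linarith
  have hκℓ : 1 / ℓ ≤ κ := le_trans (by gcongr) hκe
  obtain ⟨L, R, N, n, n', hL1, hℓL, hLe, hRe, hRN, hR1, hN, hn1, hn2, hn3, hn4, hb1, hb2, hb3⟩ :=
    HP2 κ hκℓ hκk t ht
  have : NeZero L := ⟨by omega⟩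
  rw [hℓ] at hℓ1 hLe hℓL
  obtain ⟨E, hE, G0, hG0m, hG0P, hG0⟩ := HT μ lam (θ / 4) hlam hKl (by linarith) L hℓ1 hLe hℓL
  rw [← hℓ] at hℓ1 hLe hℓL hG0P hG0
  obtain ⟨G, hGm, hGP, hG⟩ := Arith.pi_real_inter μ hμ G0 hG0m _ hG0P
  have hGc : (Measure.pi fun _ : T d L => μ).real Gᶜ ≤ (ℓ ^ ((N0 + d + 3) * d + 1))⁻¹ := by
    have := probReal_add_probReal_compl (μ := Measure.pi fun _ : T d L => μ) hGm
    linarith
  have hfs : SuppIn f R := by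
    intro x hx i
    have h1 : (|x i| : ℝ) ≤ R := (hf x hx i).trans (le_trans (by gcongr) hRe)
    exact_mod_cast h1
  have hnorm : ‖tau L f‖ = ‖f‖ := tau_norm_eq hfs (by omega)
  have hμ1 : ∀ᵐ s ∂μ, |s| ≤ 1 := by
    rw [ae_iff]
    refine measure_mono_null (fun s hs => ?_) hμ
    intro hs'
    exact hs (abs_le.2 hs')
  have hdir : ((2 * n : ℕ) : ℝ) * (4 * Dir (fun y => (tau L f) y) +
      12 * (ℓ ^ 2)⁻¹ * ‖tau L f‖ ^ 2) ≤ bb d * (θ * ‖tau L f‖) ^ 2 := by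
    have h1 := (dir_tau (L := L) f R hfs hR1).trans hkin
    rw [hnorm]
    calc ((2 * n : ℕ) : ℝ) * (4 * Dir (fun y => (tau L f) y) + 12 * (ℓ ^ 2)⁻¹ * ‖f‖ ^ 2)
        ≤ ((2 * n : ℕ) : ℝ) * (4 * (κ ^ 2 * ‖f‖ ^ 2) + 12 * (ℓ ^ 2)⁻¹ * ‖f‖ ^ 2) := by gcongr
      _ = ((2 * n : ℕ) : ℝ) * (4 * κ ^ 2 + 12 * (ℓ ^ 2)⁻¹) * ‖f‖ ^ 2 := by ring
      _ ≤ bb d * θ ^ 2 * ‖f‖ ^ 2 := by gcongr
      _ = bb d * (θ * ‖f‖) ^ 2 := by ring
  have hm0 : 1 / (L : ℝ) ^ 2 ≤ (ℓ ^ 2)⁻¹ := by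
    rw [← one_div]
    gcongr
  have hm1 : (ℓ ^ 2)⁻¹ ≤ 1 := inv_le_one_of_one_le₀ (one_le_pow₀ hℓ1)
  have e4 : 4 * (θ / 4) = θ := by ring
  obtain ⟨m, hm⟩ := HM L lam (E - 2 * (ℓ ^ 2)⁻¹) θ (ℓ ^ 2)⁻¹ θ μ hμ1 G hGm
    (fun V hV => by
      obtain ⟨w, hw1, hw2⟩ := hG0 V (hG V hV).1 (hG V hV).2
      have := gd_of_mass hlam.le hlam1 (by positivity) (by linarith) hE (hG V hV).2 hw1 hm0 hm1 hw2
      rwa [e4] at this)
    hθ0.le hθ0.le n n' hn1 hn2 hn3 (tau L f) hdir t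
  have hfin := from_torus μ hμ lam hlam.le hlam1 f R N hfs hRN t hN m _ hm
  refine hfin.trans (ENNReal.ofReal_le_ofReal ?_)
  rw [hnorm]
  have hf0 : 0 ≤ ‖f‖ ^ 2 := by positivity
  have h5 : 12 * (L : ℝ) ^ d * (Measure.pi fun _ : T d L => μ).real Gᶜ ≤ δ / 4 := by
    refine le_trans ?_ hb2
    gcongr
  calc 2 * ((8 * (θ + θ) ^ 2 + 2 * C * (lam * (n + |t|)) ^ 2 / (n' : ℝ) ^ ((d : ℝ) / 2) +
        6 * (L : ℝ) ^ d * (Measure.pi fun _ : T d L => μ).real Gᶜ) * ‖f‖ ^ 2) +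
        8 * (Real.exp (-(N : ℝ)) * ‖f‖) ^ 2
      = (64 * θ ^ 2 + 4 * C * (lam * (n + |t|)) ^ 2 / (n' : ℝ) ^ ((d : ℝ) / 2) +
        12 * (L : ℝ) ^ d * (Measure.pi fun _ : T d L => μ).real Gᶜ +
        8 * Real.exp (-(N : ℝ)) ^ 2) * ‖f‖ ^ 2 := by ring
    _ ≤ (δ / 4 + δ / 4 + δ / 4 + δ / 4) * ‖f‖ ^ 2 := by
        gcongr
        rw [hθ2]
        linarith
    _ = δ * ‖f‖ ^ 2 := by ring

/-- the lower bound for the average -/
theorem main_low (d : ℕ) (μ : Measure ℝ) [IsProbabilityMeasure μ] (hμ : μ (Set.Icc (-1) 1)ᶜ = 0)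
    (lam : ℝ) (f : L2 d) (t δ : ℝ) (hδ : 0 ≤ δ)
    (h : ∫⁻ ω, ∑' x, ENNReal.ofReal (‖evoF lam ω t (f : (Fin d → ℤ) → ℂ) x -
        avgF μ lam t (f : (Fin d → ℤ) → ℂ) x‖ ^ 2) ∂(Measure.infinitePi fun _ : Fin d → ℤ => μ) ≤
      ENNReal.ofReal (δ * ‖f‖ ^ 2)) :
    Summable (fun x => ‖avgF μ lam t (f : (Fin d → ℤ) → ℂ) x‖ ^ 2) ∧
    (1 - δ) * ‖f‖ ^ 2 ≤ ∑' x, ‖avgF μ lam t (f : (Fin d → ℤ) → ℂ) x‖ ^ 2 := by
  set P := Measure.infinitePi fun _ : Fin d → ℤ => μ with hP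
  set u : (Fin d → ℤ) → ℂ := (f : (Fin d → ℤ) → ℂ) with hu
  have hbd := bounded_ae (d := d) μ hμ
  have hmeas : ∀ (x : Fin d → ℤ) (c : ℂ),
      AEMeasurable (fun ω => ENNReal.ofReal (‖evoF lam ω t u x - c‖ ^ 2)) P := by
    intro x c
    have h2 : Measurable fun ω => ENNReal.ofReal (‖evoB lam t u x ω - c‖ ^ 2) :=
      (((evoB_meas lam f t x).sub measurable_const).norm.pow_const 2).ennreal_ofReal
    refine h2.aemeasurable.congr ?_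
    filter_upwards [hbd] with ω hω
    unfold evoB
    rw [Set.indicator_of_mem (show ω ∈ {ω : (Fin d → ℤ) → ℝ | ∀ x, |ω x| ≤ 1} from hω)]
  have hmeas0 : ∀ x : Fin d → ℤ,
      AEMeasurable (fun ω => ENNReal.ofReal (‖evoF lam ω t u x‖ ^ 2)) P := by
    intro x
    have := hmeas x 0
    simpa only [sub_zero] using this
  have htot : ∑' x, ∫⁻ ω, ENNReal.ofReal (‖evoF lam ω t u x‖ ^ 2) ∂P =
      ENNReal.ofReal (‖f‖ ^ 2) := by
    rw [← lintegral_tsum hmeas0]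
    have h1 : ∫⁻ _ : (Fin d → ℤ) → ℝ, ENNReal.ofReal (‖f‖ ^ 2) ∂P = ENNReal.ofReal (‖f‖ ^ 2) := by
      simp
    rw [← h1]
    refine lintegral_congr_ae ?_
    filter_upwards [hbd] with ω hω
    obtain ⟨H, hH⟩ := Pool.Agent.H4R2.AE.Exist.exists_anderson d lam ω 1 zero_le_one hω
    have h2 : ‖ev H t f‖ ^ 2 = ‖f‖ ^ 2 := by rw [ev_norm (anderson_sa hH)]
    rw [← h2, l2_norm_sq, ENNReal.ofReal_tsum_of_nonneg (fun x => by positivity)
      (l2_summable (ev H t f))]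
    refine tsum_congr fun x => ?_
    rw [hu, evo_eq hH]
  have hsum : ENNReal.ofReal (‖f‖ ^ 2) =
      (∑' x, ∫⁻ ω, ENNReal.ofReal (‖evoF lam ω t u x - avgF μ lam t u x‖ ^ 2) ∂P) +
        ∑' x, ENNReal.ofReal (‖avgF μ lam t u x‖ ^ 2) := by
    rw [← htot, ← ENNReal.tsum_add]
    exact tsum_congr fun x => (var_x μ hμ lam f t x 0).2
  rw [lintegral_tsum fun x => hmeas x _] at h
  have hle : ∑' x, ENNReal.ofReal (‖avgF μ lam t u x‖ ^ 2) ≤ ENNReal.ofReal (‖f‖ ^ 2) := by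
    rw [hsum]
    exact le_add_self
  have hfin : ∑' x, ENNReal.ofReal (‖avgF μ lam t u x‖ ^ 2) ≠ ⊤ :=
    ne_top_of_le_ne_top ENNReal.ofReal_ne_top hle
  have hS : Summable fun x => ‖avgF μ lam t u x‖ ^ 2 := by
    have := ENNReal.summable_toReal hfin
    refine this.congr fun x => ?_
    rw [ENNReal.toReal_ofReal (by positivity)]
  refine ⟨hS, ?_⟩
  have h3 : ENNReal.ofReal (‖f‖ ^ 2) ≤
      ENNReal.ofReal (δ * ‖f‖ ^ 2 + ∑' x, ‖avgF μ lam t u x‖ ^ 2) := by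
    rw [ENNReal.ofReal_add (by positivity) (tsum_nonneg fun x => by positivity),
      ENNReal.ofReal_tsum_of_nonneg (fun x => by positivity) hS, hsum]
    gcongr
  have h5 : 0 ≤ ∑' x, ‖avgF μ lam t u x‖ ^ 2 := tsum_nonneg fun x => by positivity
  have h4 := (ENNReal.ofReal_le_ofReal_iff (by positivity)).1 h3
  linarith

end Pool.Agent.V8H95.MF
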