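import Pool.Agent.V8H95.MF.Tor
import Pool.Agent.V8H99.AD.Bridge
import Pool.Agent.V8H99.AD.Law

/-!
From the torus to `ℤ^d`.
-/

set_option autoImplicit false
set_option linter.unusedSectionVars false

open Complex MeasureTheory
open scoped BigOperators ComplexConjugate ENNReal

namespace Pool.Agent.V8H95.MF

open Pool.Agent.H4R2.AE Pool.Agent.V8H99.AD

variable {d L : ℕ} [NeZero L]

theorem iota_exists (m : XT d L) : ∃ g : L2 d, (∀ y : T d L, g (rep y) = m y) ∧
    ∀ x, (∀ y : T d L, rep y ≠ x) → g x = 0 := by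
  set u : (Fin d → ℤ) → ℂ := Function.extend (rep : T d L → Fin d → ℤ) (fun y => m y) 0 with hu
  have h1 : (Function.support u).Finite := by
    refine (Set.finite_range (rep : T d L → Fin d → ℤ)).subset fun x hx => ?_
    by_contra h
    apply hx
    rw [hu, Function.extend_apply' _ _ _ (fun ⟨y, hy⟩ => h ⟨y, hy⟩)]
    rfl
  obtain ⟨g, hg⟩ := exists_l2 u h1
  refine ⟨g, fun y => ?_, fun x hx => ?_⟩
  · rw [hg, hu, (rep_injective (d := d) (L := L)).extend_apply]
  · rw [hg, hu, Function.extend_apply' _ _ _ (fun ⟨y, hy⟩ => hx y hy)]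
    rfl

theorem tau_norm_range (f : L2 d) (hf : ∀ x, (∀ y : T d L, rep y ≠ x) → f x = 0) :
    ‖tau L f‖ = ‖f‖ := by
  have h : ‖tau L f‖ ^ 2 = ‖f‖ ^ 2 := by
    rw [EuclideanSpace.norm_sq_eq, l2_norm_sq]
    have h0 : ∑ y : T d L, ‖(tau L f) y‖ ^ 2 = ∑' y : T d L, ‖f (rep y)‖ ^ 2 :=
      (tsum_fintype _).symm
    rw [h0]
    have h1 := (rep_injective (d := d) (L := L)).tsum_eq (f := fun x => ‖f x‖ ^ 2) (by
      intro x hx
      by_contra hcon
      apply hx
      show ‖f x‖ ^ 2 = 0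
      rw [hf x fun y hy => hcon ⟨y, hy⟩]
      simp)
    exact h1
  exact (pow_left_inj₀ (norm_nonneg _) (norm_nonneg _) two_ne_zero).1 h

theorem lift_close {lam : ℝ} {ω : (Fin d → ℤ) → ℝ} {H : L2 d →L[ℂ] L2 d}
    (hH : IsAnderson lam ω H) (hω : ∀ x, |lam * ω x| ≤ 1) (f : L2 d) (R N : ℕ)
    (hf : SuppIn f R) (hN : 2 * (R + N) < L) (t : ℝ) (ht : 24 * ((4 * d + 1) * |t|) ≤ N)
    (m : XT d L) (g : L2 d) (hg1 : ∀ y : T d L, g (rep y) = m y)
    (hg2 : ∀ x, (∀ y : T d L, rep y ≠ x) → g x = 0) :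
    ‖ev H t f - g‖ ≤ ‖ev (HC lam (fun y : T d L => ω (rep y))) t (tau L f) - m‖ +
      2 * (Real.exp (-(N : ℝ)) * ‖f‖) := by
  have hn1 := anderson_norm hH hω
  have hn3 : ‖(HC lam (fun y : T d L => ω (rep y)) : XT d L →L[ℂ] XT d L)‖ ≤ 4 * d + 1 :=
    HC_norm fun x => hω (rep x)
  have e1 := tr_err H t _ N hn1 ht f
  have e3 := tr_err (HC lam (fun y : T d L => ω (rep y))) t _ N hn3 ht (tau L f)
  have hfn : ‖tau L f‖ = ‖f‖ := tau_norm_eq hf (by omega)
  rw [hfn] at e3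
  set S := tr H t N f with hS
  have hSs : SuppIn S (R + N) := supp_tr hH hf t
  have hS0 : ∀ x, (∀ y : T d L, rep y ≠ x) → S x = 0 := by
    intro x hx
    by_contra h0
    obtain ⟨y, hy⟩ := rep_surj (L := L) (x := x) fun i => by
      have := hSs x h0 i
      omega
    exact hx y hy
  have hSt : tauL d L S = tr (HC lam (fun y : T d L => ω (rep y))) t N (tau L f) :=
    tau_tr hH hf hN t
  have htg : tauL d L g = m := by
    ext y
    exact hg1 y
  have h1 : ‖S - g‖ = ‖tauL d L S - m‖ := by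
    rw [← htg, ← map_sub]
    refine (tau_norm_range (S - g) fun x hx => ?_).symm
    rw [lp.coeFn_sub, Pi.sub_apply, hS0 x hx, hg2 x hx, sub_zero]
  have h2 : ‖ev H t f - g‖ ≤ ‖ev H t f - S‖ + ‖S - g‖ := by
    have : ev H t f - g = (ev H t f - S) + (S - g) := by abel
    rw [this]
    exact norm_add_le _ _
  have h3 : ‖tauL d L S - m‖ ≤
      ‖ev (HC lam (fun y : T d L => ω (rep y))) t (tau L f) - tauL d L S‖ +
      ‖ev (HC lam (fun y : T d L => ω (rep y))) t (tau L f) - m‖ := by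
    have : tauL d L S - m = -(ev (HC lam (fun y : T d L => ω (rep y))) t (tau L f) - tauL d L S) +
      (ev (HC lam (fun y : T d L => ω (rep y))) t (tau L f) - m) := by abel
    rw [this]
    refine (norm_add_le _ _).trans ?_
    rw [norm_neg]
  rw [h1] at h2
  rw [hSt] at h2 h3
  linarith

/-- `exp(-itH) u` at `x` -/
noncomputable def evoF (lam : ℝ) (ω : (Fin d → ℤ) → ℝ) (t : ℝ) (u : (Fin d → ℤ) → ℂ)
    (x : Fin d → ℤ) : ℂ :=
  ∑' n : ℕ, (-(t : ℂ) * Complex.I) ^ n / n.factorial * (HF lam ω)^[n] u x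

/-- its average over the disorder -/
noncomputable def avgF (μ : Measure ℝ) (lam t : ℝ) (u : (Fin d → ℤ) → ℂ) (x : Fin d → ℤ) : ℂ :=
  ∫ ω, evoF lam ω t u x ∂(Measure.infinitePi fun _ : Fin d → ℤ => μ)

theorem iter_meas (lam : ℝ) (u : (Fin d → ℤ) → ℂ) (n : ℕ) (x : Fin d → ℤ) :
    Measurable fun ω : (Fin d → ℤ) → ℝ => (HF lam ω)^[n] u x := by
  induction n generalizing x with
  | zero => exact measurable_const
  | succ n ih =>
    simp only [Function.iterate_succ_apply']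
    unfold HF at ih ⊢
    refine Measurable.add (Finset.measurable_sum _ fun i _ => ?_) ?_
    · exact (((ih x).const_mul 2).sub (ih _)).sub (ih _)
    · have h0 : Measurable fun ω : (Fin d → ℤ) → ℝ => ω x := measurable_pi_apply x
      have h1 : Measurable fun ω : (Fin d → ℤ) → ℝ => lam * ω x := h0.const_mul lam
      exact (Complex.measurable_ofReal.comp h1).mul (ih x)

/-- the bounded version -/
noncomputable def evoB (lam : ℝ) (t : ℝ) (u : (Fin d → ℤ) → ℂ) (x : Fin d → ℤ)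
    (ω : (Fin d → ℤ) → ℝ) : ℂ :=
  Set.indicator {ω : (Fin d → ℤ) → ℝ | ∀ x, |ω x| ≤ 1} (fun ω => evoF lam ω t u x) ω

theorem evo_eq {lam : ℝ} {ω : (Fin d → ℤ) → ℝ} {H : L2 d →L[ℂ] L2 d} (hH : IsAnderson lam ω H)
    (f : L2 d) (t : ℝ) (x : Fin d → ℤ) : evoF lam ω t (f : (Fin d → ℤ) → ℂ) x = (ev H t f) x :=
  (evo_hasSum hH f t x).tsum_eq

theorem evoB_meas (lam : ℝ) (f : L2 d) (t : ℝ) (x : Fin d → ℤ) :
    Measurable (evoB lam t (f : (Fin d → ℤ) → ℂ) x) := by
  refine measurable_of_tendsto_metrizable (f := fun N : ℕ => fun ω : (Fin d → ℤ) → ℝ =>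
    Set.indicator {ω : (Fin d → ℤ) → ℝ | ∀ x, |ω x| ≤ 1} (fun ω =>
      ∑ n ∈ Finset.range N, (-(t : ℂ) * Complex.I) ^ n / n.factorial *
        (HF lam ω)^[n] (f : (Fin d → ℤ) → ℂ) x) ω) (fun N => ?_) ?_
  · refine Measurable.indicator ?_ measurable_bdd
    exact Finset.measurable_sum _ fun n _ => (iter_meas lam _ n x).const_mul _
  · rw [tendsto_pi_nhds]
    intro ω
    by_cases hω : ω ∈ {ω : (Fin d → ℤ) → ℝ | ∀ x, |ω x| ≤ 1}
    · obtain ⟨H, hH⟩ := Pool.Agent.H4R2.AE.Exist.exists_anderson d lam ω 1 zero_le_one hω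
      have h1 := (evo_hasSum hH f t x).tendsto_sum_nat
      rw [← evo_eq hH f t x] at h1
      unfold evoB
      simp only [Set.indicator_of_mem hω]
      exact h1
    · unfold evoB
      simp only [Set.indicator_of_notMem hω]
      exact tendsto_const_nhds

theorem evoB_bdd (lam : ℝ) (f : L2 d) (t : ℝ) (x : Fin d → ℤ) (ω : (Fin d → ℤ) → ℝ) :
    ‖evoB lam t (f : (Fin d → ℤ) → ℂ) x ω‖ ≤ ‖f‖ := by
  by_cases hω : ω ∈ {ω : (Fin d → ℤ) → ℝ | ∀ x, |ω x| ≤ 1}
  · obtain ⟨H, hH⟩ := Pool.Agent.H4R2.AE.Exist.exists_anderson d lam ω 1 zero_le_one hω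
    unfold evoB
    rw [Set.indicator_of_mem hω, evo_eq hH]
    refine (lp.norm_apply_le_norm two_ne_zero _ _).trans ?_
    rw [ev_norm (anderson_sa hH)]
  · unfold evoB
    rw [Set.indicator_of_notMem hω, norm_zero]
    exact norm_nonneg _

/-- the average is the best constant -/
theorem var_x (μ : Measure ℝ) [IsProbabilityMeasure μ] (hμ : μ (Set.Icc (-1) 1)ᶜ = 0)
    (lam : ℝ) (f : L2 d) (t : ℝ) (x : Fin d → ℤ) (c : ℂ) :
    (∫⁻ ω, ENNReal.ofReal (‖evoF lam ω t (f : (Fin d → ℤ) → ℂ) x -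
        avgF μ lam t (f : (Fin d → ℤ) → ℂ) x‖ ^ 2) ∂(Measure.infinitePi fun _ : Fin d → ℤ => μ) ≤
      ∫⁻ ω, ENNReal.ofReal (‖evoF lam ω t (f : (Fin d → ℤ) → ℂ) x - c‖ ^ 2)
        ∂(Measure.infinitePi fun _ : Fin d → ℤ => μ)) ∧
    ∫⁻ ω, ENNReal.ofReal (‖evoF lam ω t (f : (Fin d → ℤ) → ℂ) x‖ ^ 2)
        ∂(Measure.infinitePi fun _ : Fin d → ℤ => μ) =
      ∫⁻ ω, ENNReal.ofReal (‖evoF lam ω t (f : (Fin d → ℤ) → ℂ) x -
        avgF μ lam t (f : (Fin d → ℤ) → ℂ) x‖ ^ 2) ∂(Measure.infinitePi fun _ : Fin d → ℤ => μ) +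
      ENNReal.ofReal (‖avgF μ lam t (f : (Fin d → ℤ) → ℂ) x‖ ^ 2) := by
  set P := Measure.infinitePi fun _ : Fin d → ℤ => μ with hP
  set u : (Fin d → ℤ) → ℂ := (f : (Fin d → ℤ) → ℂ) with hu
  set g : ((Fin d → ℤ) → ℝ) → ℂ := evoB lam t u x with hg
  have hgm : Measurable g := evoB_meas lam f t x
  have hgb : ∀ ω, ‖g ω‖ ≤ ‖f‖ := evoB_bdd lam f t x
  have hae : ∀ᵐ ω ∂P, evoF lam ω t u x = g ω := by
    filter_upwards [bounded_ae (d := d) μ hμ] with ω hω
    rw [hg]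
    unfold evoB
    rw [Set.indicator_of_mem (show ω ∈ {ω : (Fin d → ℤ) → ℝ | ∀ x, |ω x| ≤ 1} from hω)]
  have havg : avgF μ lam t u x = ∫ ω, g ω ∂P := integral_congr_ae hae
  have hl : ∀ c : ℂ, ∫⁻ ω, ENNReal.ofReal (‖evoF lam ω t u x - c‖ ^ 2) ∂P =
      ENNReal.ofReal (∫ ω, ‖g ω - c‖ ^ 2 ∂P) := by
    intro c
    have hi : Integrable (fun ω => ‖g ω - c‖ ^ 2) P :=
      ES.int_sq P (fun ω => g ω - c) (hgm.sub measurable_const).aestronglyMeasurable (‖f‖ + ‖c‖)
        fun ω => (norm_sub_le _ _).trans (by gcongr; exact hgb ω)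
    rw [ofReal_integral_eq_lintegral_ofReal hi (Filter.Eventually.of_forall fun ω => by positivity)]
    refine lintegral_congr_ae ?_
    filter_upwards [hae] with ω hω
    rw [hω]
  have hvs := ES.var_split P g hgm.aestronglyMeasurable ‖f‖ hgb
  constructor
  · rw [hl, hl, havg]
    exact ENNReal.ofReal_le_ofReal (ES.var_le P g hgm.aestronglyMeasurable ‖f‖ hgb c)
  · have h0 := hl 0
    simp only [sub_zero] at h0
    have h1 := hvs 0
    simp only [sub_zero] at h1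
    rw [h0, hl, havg, h1, ENNReal.ofReal_add (integral_nonneg fun ω => by positivity)
      (by positivity)]

/-- from a bound on the torus to a bound on `ℤ^d` -/
theorem from_torus (μ : Measure ℝ) [IsProbabilityMeasure μ] (hμ : μ (Set.Icc (-1) 1)ᶜ = 0)
    (lam : ℝ) (h0 : 0 ≤ lam) (h1 : lam ≤ 1) (f : L2 d) (R N : ℕ) (hf : SuppIn f R)
    (hN : 2 * (R + N) < L) (t : ℝ) (ht : 24 * ((4 * d + 1) * |t|) ≤ N) (m : XT d L) (B : ℝ)
    (hB : ∫ V, ‖ev (HC lam V) t (tau L f) - m‖ ^ 2 ∂(Measure.pi fun _ : T d L => μ) ≤ B) :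
    ∫⁻ ω, ∑' x, ENNReal.ofReal (‖evoF lam ω t (f : (Fin d → ℤ) → ℂ) x -
        avgF μ lam t (f : (Fin d → ℤ) → ℂ) x‖ ^ 2) ∂(Measure.infinitePi fun _ : Fin d → ℤ => μ) ≤
      ENNReal.ofReal (2 * B + 8 * (Real.exp (-(N : ℝ)) * ‖f‖) ^ 2) := by
  set P := Measure.infinitePi fun _ : Fin d → ℤ => μ with hP
  set u : (Fin d → ℤ) → ℂ := (f : (Fin d → ℤ) → ℂ) with hu
  obtain ⟨g, hg1, hg2⟩ := iota_exists m
  have hbd := bounded_ae (d := d) μ hμ
  have hmeas : ∀ (x : Fin d → ℤ) (c : ℂ),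
      AEMeasurable (fun ω => ENNReal.ofReal (‖evoF lam ω t u x - c‖ ^ 2)) P := by
    intro x c
    have h2 : Measurable fun ω => ENNReal.ofReal (‖evoB lam t u x ω - c‖ ^ 2) :=
      (((evoB_meas lam f t x).sub measurable_const).norm.pow_const 2).ennreal_ofReal
    refine h2.aemeasurable.congr ?_
    filter_upwards [hbd] with ω hω
    unfold evoB
    rw [Set.indicator_of_mem (show ω ∈ {ω : (Fin d → ℤ) → ℝ | ∀ x, |ω x| ≤ 1} from hω)]
  rw [lintegral_tsum fun x => hmeas x _]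
  calc ∑' x, ∫⁻ ω, ENNReal.ofReal (‖evoF lam ω t u x - avgF μ lam t u x‖ ^ 2) ∂P
      ≤ ∑' x, ∫⁻ ω, ENNReal.ofReal (‖evoF lam ω t u x - g x‖ ^ 2) ∂P :=
        ENNReal.tsum_le_tsum fun x => (var_x μ hμ lam f t x (g x)).1
    _ = ∫⁻ ω, ∑' x, ENNReal.ofReal (‖evoF lam ω t u x - g x‖ ^ 2) ∂P :=
        (lintegral_tsum fun x => hmeas x _).symm
    _ ≤ ∫⁻ ω, ENNReal.ofReal (2 * ‖ev (HC lam (fun y : T d L => ω (rep y))) t (tau L f) - m‖ ^ 2 +
          8 * (Real.exp (-(N : ℝ)) * ‖f‖) ^ 2) ∂P := by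
        refine lintegral_mono_ae ?_
        filter_upwards [hbd] with ω hω
        obtain ⟨H, hH⟩ := Pool.Agent.H4R2.AE.Exist.exists_anderson d lam ω 1 zero_le_one hω
        have hω' : ∀ x, |lam * ω x| ≤ 1 := fun x => by
          rw [abs_mul, abs_of_nonneg h0]
          nlinarith [hω x, abs_nonneg (ω x)]
        have h3 := lift_close hH hω' f R N hf hN t ht m g hg1 hg2
        have e1 : ∑' x, ENNReal.ofReal (‖evoF lam ω t u x - g x‖ ^ 2) =
            ENNReal.ofReal (‖ev H t f - g‖ ^ 2) := by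
          rw [l2_norm_sq, ENNReal.ofReal_tsum_of_nonneg (fun x => by positivity)
            (l2_summable (ev H t f - g))]
          refine tsum_congr fun x => ?_
          rw [hu, evo_eq hH, lp.coeFn_sub, Pi.sub_apply]
        rw [e1]
        apply ENNReal.ofReal_le_ofReal
        have h4 := pow_le_pow_left₀ (norm_nonneg _) h3 2
        nlinarith [sq_nonneg (‖ev (HC lam (fun y : T d L => ω (rep y))) t (tau L f) - m‖ -
          2 * (Real.exp (-(N : ℝ)) * ‖f‖))]
    _ = ∫⁻ V, ENNReal.ofReal (2 * ‖ev (HC lam V) t (tau L f) - m‖ ^ 2 +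
          8 * (Real.exp (-(N : ℝ)) * ‖f‖) ^ 2) ∂(Measure.pi fun _ : T d L => μ) := by
        have hcont : Continuous fun V : T d L → ℝ => ev (HC lam V) t (tau L f) :=
          (ev_cont_V lam t).clm_apply continuous_const
        have hm2 : Measurable fun V : T d L → ℝ =>
            ENNReal.ofReal (2 * ‖ev (HC lam V) t (tau L f) - m‖ ^ 2 +
              8 * (Real.exp (-(N : ℝ)) * ‖f‖) ^ 2) :=
          ((((hcont.sub continuous_const).norm.pow 2).const_mul 2).add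
            continuous_const).measurable.ennreal_ofReal
        rw [← (law_rep (d := d) (L := L) μ).lintegral_comp hm2]
    _ ≤ ENNReal.ofReal (2 * B + 8 * (Real.exp (-(N : ℝ)) * ‖f‖) ^ 2) := by
        have hcont : Continuous fun V : T d L → ℝ => ev (HC lam V) t (tau L f) :=
          (ev_cont_V lam t).clm_apply continuous_const
        have hi : Integrable (fun V => ‖ev (HC lam V) t (tau L f) - m‖ ^ 2)
            (Measure.pi fun _ : T d L => μ) := by
          refine Integrable.of_bound (C := (‖tau L f‖ + ‖m‖) ^ 2)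
            ((hcont.sub continuous_const).norm.pow 2).aestronglyMeasurable
            (Filter.Eventually.of_forall fun V => ?_)
          rw [Real.norm_eq_abs, abs_of_nonneg (by positivity)]
          refine pow_le_pow_left₀ (norm_nonneg _) ((norm_sub_le _ _).trans ?_) 2
          rw [evn]
        have hi2 : Integrable (fun V => 2 * ‖ev (HC lam V) t (tau L f) - m‖ ^ 2 +
            8 * (Real.exp (-(N : ℝ)) * ‖f‖) ^ 2) (Measure.pi fun _ : T d L => μ) :=
          (hi.const_mul 2).add (integrable_const _)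
        rw [← ofReal_integral_eq_lintegral_ofReal hi2
          (Filter.Eventually.of_forall fun V => by positivity)]
        apply ENNReal.ofReal_le_ofReal
        rw [integral_add (hi.const_mul 2) (integrable_const _), integral_const_mul]
        simp only [integral_const, probReal_univ, smul_eq_mul, one_mul]
        linarith

end Pool.Agent.V8H95.MF
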