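import Pool.Agent.V8H95.MF.Pow
import Pool.Agent.V8H99.AD.Ev

/-!
The smoothed propagator under a rank one perturbation.
-/

set_option autoImplicit false
set_option linter.unusedSectionVars false

open Complex MeasureTheory intervalIntegral
open scoped BigOperators

namespace Pool.Agent.V8H95.MF

open Pool.Agent.V8H99.AD (ev ev_norm ev_zero ev_comm ev_inner ev_deriv)

section abs

variable {X : Type*} [NormedAddCommGroup X] [InnerProductSpace ℂ X] [CompleteSpace X]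

theorem ev_cont (A : X →L[ℂ] X) (x : X) : Continuous fun s : ℝ => ev A s x :=
  continuous_iff_continuousAt.2 fun s => (ev_deriv A s x).continuousAt

theorem ev_deriv_op (A : X →L[ℂ] X) (t : ℝ) :
    HasDerivAt (fun s : ℝ => ev A s) (ev A t * ((-Complex.I) • A)) t := by
  have h1 : ∀ s : ℝ, (-(s : ℂ) * Complex.I) • A = s • ((-Complex.I) • A) := by
    intro s
    rw [← Complex.coe_smul, smul_smul]
    congr 1
    ring
  have h2 := hasDerivAt_exp_smul_const (𝕂 := ℝ) (((-Complex.I) • A : X →L[ℂ] X)) t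
  unfold ev
  simp only [h1]
  exact h2

/-- Duhamel formula for a rank one perturbation -/
theorem duhamel {H H' : X →L[ℂ] X} (v : ℝ) (e : X) (hv : ∀ y, H' y = H y + ((v : ℂ) * inner ℂ e y) • e) (J : X →L[ℂ] X) (β : ℝ)
    (hβ : ∀ s, ‖J (ev H' s e)‖ ≤ β) (x : X) (t : ℝ) :
    ‖J (ev H' t x) - J (ev H t x)‖ ≤ |v| * β * |∫ s in (0 : ℝ)..t, ‖(inner ℂ e (ev H s x) : ℂ)‖| := by
  have hβ0 : 0 ≤ β := (norm_nonneg _).trans (hβ 0)
  set F : ℝ → X := fun s => J (ev H' (t - s) (ev H s x)) with hF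
  set F' : ℝ → X := fun s => (Complex.I * ((v : ℂ) * inner ℂ e (ev H s x))) • J (ev H' (t - s) e)
    with hF'
  have hder : ∀ s, HasDerivAt F (F' s) s := by
    intro s
    have h1 : HasDerivAt (fun s : ℝ => (ev H' (t - s)).restrictScalars ℝ)
        ((-(ev H' (t - s) * ((-Complex.I) • H'))).restrictScalars ℝ) s := by
      have h2 : HasDerivAt (fun s : ℝ => t - s) (-1) s := by
        simpa using (hasDerivAt_id s).const_sub t
      have h3 := HasDerivAt.scomp s (ev_deriv_op H' (t - s)) h2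
      have h3' : HasDerivAt (fun s : ℝ => ev H' (t - s)) (-(ev H' (t - s) * ((-Complex.I) • H'))) s := by
        refine (h3.congr_deriv ?_)
        rw [neg_smul, one_smul]
      exact (ContinuousLinearMap.restrictScalarsL ℂ X X ℝ ℝ).hasFDerivAt.comp_hasDerivAt s h3'
    have h4 := ev_deriv H s x
    have h5 := h1.clm_apply h4
    have h7 := (J.restrictScalars ℝ).hasFDerivAt.comp_hasDerivAt s h5
    refine h7.congr_deriv ?_
    show J (-(ev H' (t - s) ((-Complex.I) • H' (ev H s x))) +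
          ev H' (t - s) ((-Complex.I) • H (ev H s x))) = F' s
    rw [hv]
    simp only [hF', map_smul, map_add, map_neg, smul_add, neg_smul, smul_smul]
    module
  have hcont : Continuous F' := by
    refine Continuous.smul ?_ ?_
    · exact continuous_const.mul (continuous_const.mul (continuous_const.inner (ev_cont H x)))
    · exact J.continuous.comp ((ev_cont H' e).comp (continuous_const.sub continuous_id))
  have hint : ∫ s in (0 : ℝ)..t, F' s = F t - F 0 :=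
    integral_eq_sub_of_hasDerivAt (fun s _ => hder s) (hcont.intervalIntegrable _ _)
  have e1 : J (ev H' t x) - J (ev H t x) = -(∫ s in (0 : ℝ)..t, F' s) := by
    rw [hint, hF]
    simp only [sub_self, sub_zero, ev_zero]
    abel
  rw [e1, norm_neg]
  have hg : Continuous fun s => ‖(inner ℂ e (ev H s x) : ℂ)‖ :=
    (continuous_const.inner (ev_cont H x)).norm
  refine (norm_integral_le_abs_integral_norm).trans ?_
  have h2 : ∀ s, ‖F' s‖ ≤ |v| * β * ‖(inner ℂ e (ev H s x) : ℂ)‖ := by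
    intro s
    rw [hF']
    simp only [norm_smul, norm_mul, Complex.norm_I, one_mul, Complex.norm_real, Real.norm_eq_abs]
    have := hβ (t - s)
    calc |v| * ‖(inner ℂ e (ev H s x) : ℂ)‖ * ‖J (ev H' (t - s) e)‖ ≤
        |v| * ‖(inner ℂ e (ev H s x) : ℂ)‖ * β := by gcongr
      _ = _ := by ring
  have h3 : |∫ s in (0 : ℝ)..t, ‖F' s‖| ≤
      |∫ s in (0 : ℝ)..t, |v| * β * ‖(inner ℂ e (ev H s x) : ℂ)‖| := by
    rcases le_total 0 t with ht | ht
    · rw [abs_of_nonneg (integral_nonneg ht fun s _ => norm_nonneg _),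
        abs_of_nonneg (integral_nonneg ht fun s _ => by positivity)]
      exact integral_mono_on ht (hcont.norm.intervalIntegrable _ _)
        ((continuous_const.mul hg).intervalIntegrable _ _) fun s _ => h2 s
    · rw [integral_symm, abs_neg, integral_symm (a := t), abs_neg,
        abs_of_nonneg (integral_nonneg ht fun s _ => norm_nonneg _),
        abs_of_nonneg (integral_nonneg ht fun s _ => by positivity)]
      exact integral_mono_on ht (hcont.norm.intervalIntegrable _ _)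
        ((continuous_const.mul hg).intervalIntegrable _ _) fun s _ => h2 s
  refine h3.trans (le_of_eq ?_)
  rw [intervalIntegral.integral_const_mul, abs_mul, abs_of_nonneg (by positivity)]

/-- telescoping of powers -/
theorem pow_diff (A B : X →L[ℂ] X) (n : ℕ) (x : X) :
    (A ^ n) x - (B ^ n) x =
      ∑ j ∈ Finset.range n, (A ^ j) (A ((B ^ (n - 1 - j)) x) - B ((B ^ (n - 1 - j)) x)) := by
  induction n generalizing x with
  | zero => simp
  | succ n ih =>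
    rw [Finset.sum_range_succ]
    have e1 : (A ^ (n + 1)) x = (A ^ n) (A x) := by rw [pow_succ]; rfl
    have e2 : (B ^ (n + 1)) x = (B ^ n) (B x) := by rw [pow_succ]; rfl
    have e3 : (A ^ (n + 1)) x - (B ^ (n + 1)) x =
        ((A ^ n) (B x) - (B ^ n) (B x)) + (A ^ n) (A x - B x) := by
      rw [e1, e2, map_sub]
      abel
    rw [e3, ih (B x)]
    have hn : n + 1 - 1 - n = 0 := by omega
    rw [hn]
    simp only [pow_zero]
    congr 1
    refine Finset.sum_congr rfl fun j hj => ?_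
    have hj' := Finset.mem_range.1 hj
    have e4 : n + 1 - 1 - j = (n - 1 - j) + 1 := by omega
    have e5 : (B ^ ((n - 1 - j) + 1)) x = (B ^ (n - 1 - j)) (B x) := by rw [pow_succ]; rfl
    rw [e4, e5]

/-- powers under a rank one perturbation -/
theorem pow_pert {Q Q' : X →L[ℂ] X} (r : ℝ) (e : X)
    (hr : ∀ y, Q' y = Q y + ((r : ℂ) * inner ℂ e y) • e) (J : X →L[ℂ] X) (β : ℝ) (n : ℕ)
    (hβ : ∀ j, j < n → ‖J ((Q' ^ j) e)‖ ≤ β) (x : X) :
    ‖J ((Q' ^ n) x) - J ((Q ^ n) x)‖ ≤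
      |r| * β * ∑ j ∈ Finset.range n, ‖(inner ℂ e ((Q ^ (n - 1 - j)) x) : ℂ)‖ := by
  rw [← map_sub, pow_diff, map_sum]
  refine (norm_sum_le _ _).trans ?_
  rw [Finset.mul_sum]
  refine Finset.sum_le_sum fun j hj => ?_
  have hj' := Finset.mem_range.1 hj
  have e1 : Q' ((Q ^ (n - 1 - j)) x) - Q ((Q ^ (n - 1 - j)) x) =
      ((r : ℂ) * inner ℂ e ((Q ^ (n - 1 - j)) x)) • e := by
    rw [hr]
    abel
  rw [e1, map_smul, map_smul, norm_smul, norm_mul, Complex.norm_real, Real.norm_eq_abs]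
  calc |r| * ‖(inner ℂ e ((Q ^ (n - 1 - j)) x) : ℂ)‖ * ‖J ((Q' ^ j) e)‖
      ≤ |r| * ‖(inner ℂ e ((Q ^ (n - 1 - j)) x) : ℂ)‖ * β := by
        gcongr
        exact hβ j hj'
    _ = _ := by ring

/-- the smoothed propagator -/
noncomputable def TT (H Q : X →L[ℂ] X) (n : ℕ) (t : ℝ) (x : X) : X :=
  (Q ^ n) (ev H t ((Q ^ n) x))

theorem comm_pow_ev {H Q : X →L[ℂ] X} (hc : Commute Q H) (n : ℕ) (t : ℝ) (x : X) :
    (Q ^ n) (ev H t x) = ev H t ((Q ^ n) x) := by
  have h : Commute (Q ^ n) ((-(t : ℂ) * Complex.I) • H) := (hc.pow_left n).smul_right _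
  have h2 := h.exp_right
  exact congrArg (fun B : X →L[ℂ] X => B x) h2.eq

/-- the smoothed propagator under a rank one perturbation -/
theorem tt_pert {H H' Q Q' J : X →L[ℂ] X} (hsa' : IsSelfAdjoint H')
    (hc' : Commute Q' H') (v r : ℝ) (e : X)
    (hv : ∀ y, H' y = H y + ((v : ℂ) * inner ℂ e y) • e)
    (hr : ∀ y, Q' y = Q y + ((r : ℂ) * inner ℂ e y) • e) (β w : ℝ) (n : ℕ)
    (hv1 : |v| ≤ w) (hr1 : |r| ≤ w) (hJ : ∀ y, ‖J y‖ ≤ ‖y‖)
    (hβ1 : ∀ j, j < n → ‖J ((Q' ^ j) e)‖ ≤ β) (hβ2 : ∀ j, ‖(Q' ^ (n + j)) e‖ ≤ β)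
    (x : X) (t : ℝ) :
    ‖J (TT H' Q' n t x) - J (TT H Q n t x)‖ ≤ w * β *
      (∑ j ∈ Finset.range n, ‖(inner ℂ e ((Q ^ (n - 1 - j)) x) : ℂ)‖ +
        |∫ s in (0 : ℝ)..t, ‖(inner ℂ e (ev H s ((Q ^ n) x)) : ℂ)‖| +
        ∑ j ∈ Finset.range n, ‖(inner ℂ e ((Q ^ (n - 1 - j)) (ev H t ((Q ^ n) x))) : ℂ)‖) := by
  have hβ0 : 0 ≤ β := (norm_nonneg _).trans (hβ2 0)
  have t1 := pow_pert r e hr (J * ((Q' ^ n) * ev H' t)) β n (fun j _ => by
    show ‖J ((Q' ^ n) (ev H' t ((Q' ^ j) e)))‖ ≤ β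
    refine (hJ _).trans ?_
    rw [comm_pow_ev hc', ev_norm hsa', ← pow_apply_add]
    exact hβ2 j) x
  have t2 := duhamel (H := H) (H' := H') v e hv (J * (Q' ^ n)) β (fun s => by
    show ‖J ((Q' ^ n) (ev H' s e))‖ ≤ β
    refine (hJ _).trans ?_
    rw [comm_pow_ev hc', ev_norm hsa']
    exact hβ2 0) ((Q ^ n) x) t
  have t3 := pow_pert r e hr J β n hβ1 (ev H t ((Q ^ n) x))
  have e1 : J (TT H' Q' n t x) - J (TT H Q n t x) =
      ((J * ((Q' ^ n) * ev H' t)) ((Q' ^ n) x) - (J * ((Q' ^ n) * ev H' t)) ((Q ^ n) x)) +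
      ((J * (Q' ^ n)) (ev H' t ((Q ^ n) x)) - (J * (Q' ^ n)) (ev H t ((Q ^ n) x))) +
      (J ((Q' ^ n) (ev H t ((Q ^ n) x))) - J ((Q ^ n) (ev H t ((Q ^ n) x)))) := by
    unfold TT
    show _ = (J ((Q' ^ n) (ev H' t ((Q' ^ n) x))) - J ((Q' ^ n) (ev H' t ((Q ^ n) x)))) +
      (J ((Q' ^ n) (ev H' t ((Q ^ n) x))) - J ((Q' ^ n) (ev H t ((Q ^ n) x)))) +
      (J ((Q' ^ n) (ev H t ((Q ^ n) x))) - J ((Q ^ n) (ev H t ((Q ^ n) x))))
    abel
  rw [e1]
  refine (norm_add₃_le).trans ?_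
  have b1 : |r| * β ≤ w * β := by gcongr
  have b2 : |v| * β ≤ w * β := by gcongr
  have s1 : 0 ≤ ∑ j ∈ Finset.range n, ‖(inner ℂ e ((Q ^ (n - 1 - j)) x) : ℂ)‖ :=
    Finset.sum_nonneg fun _ _ => norm_nonneg _
  have s3 : 0 ≤ ∑ j ∈ Finset.range n,
      ‖(inner ℂ e ((Q ^ (n - 1 - j)) (ev H t ((Q ^ n) x))) : ℂ)‖ :=
    Finset.sum_nonneg fun _ _ => norm_nonneg _
  have s2 : 0 ≤ |∫ s in (0 : ℝ)..t, ‖(inner ℂ e (ev H s ((Q ^ n) x)) : ℂ)‖| := abs_nonneg _
  have c1 := mul_le_mul_of_nonneg_right b1 s1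
  have c2 := mul_le_mul_of_nonneg_right b2 s2
  have c3 := mul_le_mul_of_nonneg_right b1 s3
  rw [mul_add, mul_add]
  linarith

end abs

section fin

variable {ι : Type} [Fintype ι] [DecidableEq ι]

/-- absolute values of the entries -/
noncomputable def av (x : EuclideanSpace ℂ ι) : EuclideanSpace ℝ ι := WithLp.toLp 2 fun i => ‖x i‖

theorem av_norm (x : EuclideanSpace ℂ ι) : ‖av x‖ = ‖x‖ := by
  rw [EuclideanSpace.norm_eq, EuclideanSpace.norm_eq]
  simp [av]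

theorem av_cont : Continuous (av : EuclideanSpace ℂ ι → EuclideanSpace ℝ ι) := by
  unfold av
  refine (PiLp.continuous_toLp 2 _).comp ?_
  exact continuous_pi fun i => (PiLp.continuous_apply 2 _ i).norm

/-- the square function of all rank one perturbations -/
theorem g_norm {H Q : EuclideanSpace ℂ ι →L[ℂ] EuclideanSpace ℂ ι} (hsa : IsSelfAdjoint H)
    (hQ : Con Q) (n : ℕ) (x : EuclideanSpace ℂ ι) (t : ℝ) :
    ∑ w, (∑ j ∈ Finset.range n, ‖((Q ^ (n - 1 - j)) x) w‖ +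
        |∫ s in (0 : ℝ)..t, ‖(ev H s ((Q ^ n) x)) w‖| +
        ∑ j ∈ Finset.range n, ‖((Q ^ (n - 1 - j)) (ev H t ((Q ^ n) x))) w‖) ^ 2 ≤
      ((2 * n + |t|) * ‖x‖) ^ 2 := by
  set G1 : EuclideanSpace ℝ ι := ∑ j ∈ Finset.range n, av ((Q ^ (n - 1 - j)) x) with hG1
  set G2 : EuclideanSpace ℝ ι := ∫ s in (0 : ℝ)..t, av (ev H s ((Q ^ n) x)) with hG2
  set G3 : EuclideanSpace ℝ ι :=
    ∑ j ∈ Finset.range n, av ((Q ^ (n - 1 - j)) (ev H t ((Q ^ n) x))) with hG3
  have n1 : ‖G1‖ ≤ n * ‖x‖ := by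
    refine (norm_sum_le _ _).trans ?_
    calc ∑ j ∈ Finset.range n, ‖av ((Q ^ (n - 1 - j)) x)‖ ≤ ∑ _j ∈ Finset.range n, ‖x‖ :=
          Finset.sum_le_sum fun j _ => by rw [av_norm]; exact pow_norm hQ _ _
      _ = n * ‖x‖ := by rw [Finset.sum_const, Finset.card_range, nsmul_eq_mul]
  have n2 : ‖G2‖ ≤ ‖x‖ * |t| := by
    have := norm_integral_le_of_norm_le_const (a := 0) (b := t) (C := ‖x‖)
      (f := fun s => av (ev H s ((Q ^ n) x))) (fun s _ => by
        rw [av_norm, ev_norm hsa]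
        exact pow_norm hQ _ _)
    rw [sub_zero] at this
    exact this
  have n3 : ‖G3‖ ≤ n * ‖x‖ := by
    refine (norm_sum_le _ _).trans ?_
    calc ∑ j ∈ Finset.range n, ‖av ((Q ^ (n - 1 - j)) (ev H t ((Q ^ n) x)))‖ ≤
          ∑ _j ∈ Finset.range n, ‖x‖ :=
          Finset.sum_le_sum fun j _ => by
            rw [av_norm]
            refine (pow_norm hQ _ _).trans ?_
            rw [ev_norm hsa]
            exact pow_norm hQ _ _
      _ = n * ‖x‖ := by rw [Finset.sum_const, Finset.card_range, nsmul_eq_mul]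
  have hc : Continuous fun s => av (ev H s ((Q ^ n) x)) := av_cont.comp (ev_cont H _)
  have hw : ∀ w, (∑ j ∈ Finset.range n, ‖((Q ^ (n - 1 - j)) x) w‖ +
        |∫ s in (0 : ℝ)..t, ‖(ev H s ((Q ^ n) x)) w‖| +
        ∑ j ∈ Finset.range n, ‖((Q ^ (n - 1 - j)) (ev H t ((Q ^ n) x))) w‖) =
      (G1 + G3) w + |G2 w| := by
    intro w
    have e1 : G1 w = ∑ j ∈ Finset.range n, ‖((Q ^ (n - 1 - j)) x) w‖ := by
      rw [hG1, WithLp.ofLp_sum, Finset.sum_apply]
      rfl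
    have e3 : G3 w = ∑ j ∈ Finset.range n, ‖((Q ^ (n - 1 - j)) (ev H t ((Q ^ n) x))) w‖ := by
      rw [hG3, WithLp.ofLp_sum, Finset.sum_apply]
      rfl
    have e2 : G2 w = ∫ s in (0 : ℝ)..t, ‖(ev H s ((Q ^ n) x)) w‖ := by
      have hii : IntervalIntegrable (fun s => av (ev H s ((Q ^ n) x))) volume 0 t :=
        hc.intervalIntegrable 0 t
      have := ContinuousLinearMap.intervalIntegral_comp_comm
        (EuclideanSpace.proj w : EuclideanSpace ℝ ι →L[ℝ] ℝ) hii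
      rw [hG2]
      exact this.symm
    rw [PiLp.add_apply, e1, e2, e3]
    ring
  simp only [hw]
  set G : EuclideanSpace ℝ ι := (G1 + G3) + WithLp.toLp 2 fun w => |G2 w| with hG
  have n4 : ‖(WithLp.toLp 2 fun w => |G2 w| : EuclideanSpace ℝ ι)‖ = ‖G2‖ := by
    rw [EuclideanSpace.norm_eq, EuclideanSpace.norm_eq]
    simp
  have n5 : ‖G‖ ≤ (2 * n + |t|) * ‖x‖ := by
    calc ‖G‖ ≤ (‖G1‖ + ‖G3‖) + ‖(WithLp.toLp 2 fun w => |G2 w| : EuclideanSpace ℝ ι)‖ :=
          (norm_add_le _ _).trans (by gcongr; exact norm_add_le _ _)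
      _ ≤ (n * ‖x‖ + n * ‖x‖) + ‖x‖ * |t| := by rw [n4]; gcongr
      _ = _ := by ring
  have n6 : ∑ w, ((G1 + G3) w + |G2 w|) ^ 2 = ‖G‖ ^ 2 := by
    rw [EuclideanSpace.norm_sq_eq]
    refine Finset.sum_congr rfl fun w _ => ?_
    rw [Real.norm_eq_abs, sq_abs]
    rfl
  rw [n6]
  exact pow_le_pow_left₀ (norm_nonneg _) n5 2

end fin

end Pool.Agent.V8H95.MF
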