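import Pool.Agent.V8H95.MF.Hk

/-!
Smoothing does not change slow waves; the smoothed propagator on the torus.
-/

set_option autoImplicit false
set_option linter.unusedSectionVars false

open Complex MeasureTheory
open scoped BigOperators ComplexConjugate

namespace Pool.Agent.V8H95.MF

open Pool.Agent.H4R2.AE Pool.Agent.V8H99.AD

variable {d L : ℕ} [NeZero L] {lam c0 η m : ℝ} {V ψ : T d L → ℝ}

theorem comm_QC (lam c0 : ℝ) (V : T d L → ℝ) :
    Commute (QC lam c0 V : XT d L →L[ℂ] XT d L) (HC lam V) := by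
  unfold QC
  refine (Commute.one_left _).sub_left (Commute.smul_left ?_ _)
  exact (Commute.refl _).sub_left (Commute.smul_left (Commute.one_left _) _)

/-- `(x, (1 - Q) x)` -/
theorem one_sub (lam c0 : ℝ) (V : T d L → ℝ) (x : XT d L) :
    (inner ℂ x (x - QC lam c0 V x)).re =
      1 / bb d * (inner ℂ x (HC lam V x - ((c0 : ℝ) : ℂ) • x)).re := by
  rw [QC_apply, sub_sub_cancel, inner_smul_right, Complex.re_ofReal_mul]

theorem contr (hQ : Con (QC lam c0 V : XT d L →L[ℂ] XT d L)) (p : ℕ) (x : XT d L) :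
    ‖x - (QC lam c0 V ^ p) x‖ ≤ ‖x‖ := by
  have h1 := sub_pow_sq hQ p x
  have h2 : (inner ℂ x (x - (QC lam c0 V ^ p) x)).re ≤ ‖x‖ ^ 2 := by
    rw [inner_sub_right, Complex.sub_re, re_self]
    have : 0 ≤ (inner ℂ x ((QC lam c0 V ^ p) x)).re := by
      rcases Nat.even_or_odd p with ⟨j, hj⟩ | ⟨j, hj⟩
      · rw [hj, pow_apply_add, ← pow_sym hQ, re_self]; positivity
      · have e0 : p = j + (1 + j) := by omega
        rw [e0, pow_apply_add, ← pow_sym hQ, pow_apply_add, pow_one]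
        exact hQ.pos _
    linarith
  exact (pow_le_pow_iff_left₀ (norm_nonneg _) (norm_nonneg _) two_ne_zero).1 (h1.trans h2)

theorem mu_close (h : Gd lam c0 η m V ψ) (u : XT d L) : ‖u - Mu ψ u‖ ≤ η * ‖u‖ := by
  rw [Mu_sub]
  refine Mu_norm_le _ η h.h0 (fun x => ?_) u
  rw [abs_le]
  constructor
  · linarith [h.hi x]
  · linarith [h.lo x, h.h0]

/-- smoothing does not change slow waves -/
theorem dress1 (hd : 1 ≤ d) (h : Gd lam c0 η m V ψ) (p : ℕ) (θ : ℝ) (hθ : 0 ≤ θ) (u : XT d L)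
    (hu : p * (4 * Dir (fun y => u y) + 12 * m * ‖u‖ ^ 2) ≤ bb d * (θ * ‖u‖) ^ 2) :
    ‖u - (QC lam c0 V ^ p) u‖ ≤ (η + θ) * ‖u‖ := by
  have hQ := con hd h
  have hb := bb_pos d
  have e : u - (QC lam c0 V ^ p) u = ((u - Mu ψ u) - (QC lam c0 V ^ p) (u - Mu ψ u)) +
      (Mu ψ u - (QC lam c0 V ^ p) (Mu ψ u)) := by
    rw [map_sub]
    abel
  have h1 := (contr hQ p (u - Mu ψ u)).trans (mu_close h u)
  have h2 : ‖Mu ψ u - (QC lam c0 V ^ p) (Mu ψ u)‖ ≤ θ * ‖u‖ := by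
    have a1 := sub_pow_sq hQ p (Mu ψ u)
    have a2 := sub_pow_le hQ p (Mu ψ u)
    rw [one_sub] at a2
    have a3 := energy_le h u
    have a4 : p * (1 / bb d * (inner ℂ (Mu ψ u) (HC lam V (Mu ψ u) -
        ((c0 : ℝ) : ℂ) • Mu ψ u)).re) ≤ (θ * ‖u‖) ^ 2 := by
      calc _ ≤ p * (1 / bb d * (4 * Dir (fun y => u y) + 12 * m * ‖u‖ ^ 2)) := by gcongr
        _ = (p * (4 * Dir (fun y => u y) + 12 * m * ‖u‖ ^ 2)) / bb d := by ring
        _ ≤ _ := by
            rw [div_le_iff₀ hb]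
            linarith
    have a5 := a1.trans (a2.trans a4)
    exact (pow_le_pow_iff_left₀ (norm_nonneg _) (by positivity) two_ne_zero).1 a5
  rw [e]
  refine (norm_add_le _ _).trans ?_
  linarith

/-- the free smoothing operator -/
noncomputable def QF (d L : ℕ) [NeZero L] : XT d L →L[ℂ] XT d L :=
  QC 0 (-(1 / (L : ℝ) ^ 2)) (0 : T d L → ℝ)

theorem gd_free (d L : ℕ) [NeZero L] :
    Gd 0 (-(1 / (L : ℝ) ^ 2)) 0 (1 / (L : ℝ) ^ 2) (0 : T d L → ℝ) (fun _ => 1) := by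
  have hL := L_sq (L := L)
  have h0 : ∀ x : T d L, Hop 0 (0 : T d L → ℝ) (fun _ => 1) x = 0 := by
    intro x
    unfold Hop
    simp only [zero_mul, add_zero, mul_one]
    apply Finset.sum_eq_zero
    intro i _
    norm_num
  exact {
    lam0 := le_rfl
    lam1 := zero_le_one
    hV := fun x => by simp
    lo := fun x => le_rfl
    hi := fun x => by simp
    h0 := le_rfl
    h1 := zero_le_one
    eqn1 := fun x => by rw [h0]; linarith
    eqn2 := fun x => by rw [h0]; linarith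
    m0 := le_rfl
    m1 := hL.2
    c := by
      rw [abs_neg, abs_of_pos hL.1]
      linarith [hL.2] }

theorem mu_const (g : XT d L) : Mu (fun _ => (1 : ℝ)) g = g := by
  ext x
  rw [Mu_apply]
  simp

theorem evn (lam : ℝ) (V : T d L → ℝ) (t : ℝ) (x : XT d L) : ‖ev (HC lam V) t x‖ = ‖x‖ :=
  ev_norm (HC_sa lam V) t x

theorem tt_norm (hd : 1 ≤ d) (h : Gd lam c0 η m V ψ) (n : ℕ) (t : ℝ) (u : XT d L) :
    ‖TT (HC lam V) (QC lam c0 V) n t u‖ ≤ ‖u‖ := by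
  unfold TT
  refine (pow_norm (con hd h) _ _).trans ?_
  rw [evn]
  exact pow_norm (con hd h) _ _

/-- the free smoothing does not change the smoothed wave -/
theorem dress2 (hd : 1 ≤ d) (h : Gd lam c0 η m V ψ) (n n' : ℕ) (θ : ℝ) (hθ : 0 ≤ θ)
    (hn : n' * (1 / (2 * n + 1) + 1 / (L : ℝ) ^ 2) ≤ θ ^ 2) (t : ℝ) (u : XT d L) :
    ‖TT (HC lam V) (QC lam c0 V) n t u - (QF d L ^ n') (TT (HC lam V) (QC lam c0 V) n t u)‖ ≤
      (η + θ) * ‖u‖ := by
  have hQ := con hd h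
  have hb := bb_pos d
  have hF := con hd (gd_free d L)
  set w := TT (HC lam V) (QC lam c0 V) n t u with hw
  have hwn : ‖w‖ ≤ ‖u‖ := tt_norm hd h n t u
  set g : XT d L := Mu (fun x => (ψ x)⁻¹) w with hg
  have hwg : Mu ψ g = w := mu_inv h w
  have hgn : ‖g‖ ≤ ‖w‖ := by
    have := Mu_norm_le (fun x => (ψ x)⁻¹) 1 zero_le_one (fun x => by
      have hp : 0 < ψ x := lt_of_lt_of_le one_pos (h.lo x)
      rw [abs_of_pos (inv_pos.2 hp)]
      exact inv_le_one_of_one_le₀ (h.lo x)) w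
    simpa using this
  have hclose : ‖w - g‖ ≤ η * ‖u‖ := by
    have h1 := mu_close h g
    rw [hwg] at h1
    rw [← norm_neg, neg_sub]
    calc _ ≤ η * ‖g‖ := h1
      _ ≤ η * ‖u‖ := mul_le_mul_of_nonneg_left (hgn.trans hwn) h.h0
  -- energy of `w`
  have hE : (inner ℂ w (HC lam V w - ((c0 : ℝ) : ℂ) • w)).re ≤ bb d / (2 * n + 1) * ‖u‖ ^ 2 := by
    have h1 := smooth' hQ n (ev (HC lam V) t ((QC lam c0 V ^ n) u))
    have h2 : (QC lam c0 V ^ n) (ev (HC lam V) t ((QC lam c0 V ^ n) u)) = w := rfl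
    rw [h2, one_sub] at h1
    have h3 : ‖ev (HC lam V) t ((QC lam c0 V ^ n) u)‖ ^ 2 ≤ ‖u‖ ^ 2 := by
      rw [evn]
      exact pow_le_pow_left₀ (norm_nonneg _) (pow_norm hQ _ _) 2
    have h4 := h1.trans h3
    rw [div_mul_eq_mul_div, le_div_iff₀ (by positivity)]
    have e : (2 * (n : ℝ) + 1) * (1 / bb d * (inner ℂ w (HC lam V w - ((c0 : ℝ) : ℂ) • w)).re) =
        (inner ℂ w (HC lam V w - ((c0 : ℝ) : ℂ) • w)).re * (2 * n + 1) / bb d := by ring
    rw [e, div_le_iff₀ hb] at h4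
    linarith
  have hD : Dir (fun y => g y) ≤ bb d / (2 * n + 1) * ‖u‖ ^ 2 := by
    have h1 := dir_le' h g
    rw [hwg] at h1
    exact h1.trans hE
  have h3 : ‖g - (QF d L ^ n') g‖ ≤ θ * ‖u‖ := by
    have a1 := sub_pow_sq hF n' g
    have a2 := sub_pow_le hF n' g
    rw [one_sub] at a2
    have a3 := energy' (gd_free d L) g
    have a30 := (gg_sum (gd_free d L) (Mu (fun _ => (1 : ℝ)) g)).2
    rw [mu_const] at a3 a30
    have a4 : ∑ i : Fin d, ∑ x : T d L, (1 : ℝ) * 1 * ‖g x - g (x + Pi.single i 1)‖ ^ 2 =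
        Dir (fun y => g y) := by
      unfold Dir
      simp
    rw [a4] at a3
    have a31 : (inner ℂ g (HC 0 (0 : T d L → ℝ) g - ((-(1 / (L : ℝ) ^ 2) : ℝ) : ℂ) • g)).re ≤
        Dir (fun y => g y) + 3 * (1 / (L : ℝ) ^ 2) * ‖g‖ ^ 2 := by
      rw [a3]
      linarith
    have hgu : ‖g‖ ^ 2 ≤ ‖u‖ ^ 2 := pow_le_pow_left₀ (norm_nonneg _) (hgn.trans hwn) 2
    have hL := (L_sq (L := L)).1
    have hb1 : 1 / bb d * 3 ≤ 1 := by
      rw [one_div_mul_eq_div, div_le_one hb]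
      unfold bb
      have : (1 : ℝ) ≤ d := by exact_mod_cast hd
      linarith
    have a5 : n' * (1 / bb d * (Dir (fun y => g y) + 3 * (1 / (L : ℝ) ^ 2) * ‖g‖ ^ 2)) ≤
        (θ * ‖u‖) ^ 2 := by
      have b1 : 1 / bb d * Dir (fun y => g y) ≤ 1 / (2 * n + 1) * ‖u‖ ^ 2 := by
        calc _ ≤ 1 / bb d * (bb d / (2 * n + 1) * ‖u‖ ^ 2) := by gcongr
          _ = _ := by field_simp
      have b2 : 1 / bb d * (3 * (1 / (L : ℝ) ^ 2) * ‖g‖ ^ 2) ≤ 1 / (L : ℝ) ^ 2 * ‖u‖ ^ 2 := by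
        calc _ = (1 / bb d * 3) * (1 / (L : ℝ) ^ 2 * ‖g‖ ^ 2) := by ring
          _ ≤ 1 * (1 / (L : ℝ) ^ 2 * ‖u‖ ^ 2) := by gcongr
          _ = _ := by ring
      calc _ ≤ n' * (1 / (2 * n + 1) * ‖u‖ ^ 2 + 1 / (L : ℝ) ^ 2 * ‖u‖ ^ 2) := by
            apply mul_le_mul_of_nonneg_left _ (Nat.cast_nonneg _)
            rw [mul_add]
            exact add_le_add b1 b2
        _ = n' * (1 / (2 * n + 1) + 1 / (L : ℝ) ^ 2) * ‖u‖ ^ 2 := by ring
        _ ≤ θ ^ 2 * ‖u‖ ^ 2 := by gcongr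
        _ = _ := by ring
    have a6 : n' * (1 / bb d * (inner ℂ g (HC 0 (0 : T d L → ℝ) g -
        ((-(1 / (L : ℝ) ^ 2) : ℝ) : ℂ) • g)).re) ≤
        n' * (1 / bb d * (Dir (fun y => g y) + 3 * (1 / (L : ℝ) ^ 2) * ‖g‖ ^ 2)) := by gcongr
    exact (pow_le_pow_iff_left₀ (norm_nonneg _) (by positivity) two_ne_zero).1
      (a1.trans (a2.trans (a6.trans a5)))
  have e : w - (QF d L ^ n') w = ((w - g) - (QF d L ^ n') (w - g)) + (g - (QF d L ^ n') g) := by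
    rw [map_sub]
    abel
  rw [e]
  refine (norm_add_le _ _).trans ?_
  have h4 : ‖(w - g) - (QF d L ^ n') (w - g)‖ ≤ η * ‖u‖ := (contr hF n' (w - g)).trans hclose
  linarith

end Pool.Agent.V8H95.MF
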