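import Pool.Agent.V8H95.MF.Dif
import Pool.Agent.V8H99.AD.Dyn
import Pool.Agent.H541R3.AND.Heat

/-!
Heat kernel bounds and energy bounds on the torus, from a flat ground state.
-/

set_option autoImplicit false
set_option linter.unusedSectionVars false

open Complex MeasureTheory
open scoped BigOperators ComplexConjugate

namespace Pool.Agent.V8H95.MF

open Pool.Agent.H4R2.AE Pool.Agent.V8H99.AD Pool.Agent.H541R3.AND.Heat

variable {d L : ℕ} [NeZero L]

/-- the normalisation -/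
noncomputable def bb (d : ℕ) : ℝ := 2 * (4 * (d : ℝ) + 1)

theorem bb_pos (d : ℕ) : 0 < bb d := by unfold bb; positivity

/-- `1 - (H - c₀)/b` -/
noncomputable def QC (lam c0 : ℝ) (V : T d L → ℝ) : XT d L →L[ℂ] XT d L :=
  1 - ((1 / bb d : ℝ) : ℂ) • (HC lam V - ((c0 : ℝ) : ℂ) • 1)

theorem QC_apply (lam c0 : ℝ) (V : T d L → ℝ) (f : XT d L) :
    QC lam c0 V f = f - ((1 / bb d : ℝ) : ℂ) • (HC lam V f - ((c0 : ℝ) : ℂ) • f) := rfl

/-- the good potentials -/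
structure Gd (lam c0 η m : ℝ) (V ψ : T d L → ℝ) : Prop where
  lam0 : 0 ≤ lam
  lam1 : lam ≤ 1
  hV : ∀ x, |V x| ≤ 1
  lo : ∀ x, 1 ≤ ψ x
  hi : ∀ x, ψ x ≤ 1 + η
  h0 : 0 ≤ η
  h1 : η ≤ 1
  eqn1 : ∀ x, (c0 + m) * ψ x ≤ Hop lam V ψ x
  eqn2 : ∀ x, Hop lam V ψ x ≤ (c0 + 3 * m) * ψ x
  m0 : 1 / (L : ℝ) ^ 2 ≤ m
  m1 : m ≤ 1
  c : |c0| ≤ 3

variable {lam c0 η m : ℝ} {V ψ : T d L → ℝ}

theorem L_one : (1 : ℝ) ≤ L := by exact_mod_cast Nat.one_le_iff_ne_zero.2 (NeZero.ne L)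

theorem L_sq : 0 < 1 / (L : ℝ) ^ 2 ∧ 1 / (L : ℝ) ^ 2 ≤ 1 := by
  have h := L_one (L := L)
  refine ⟨by positivity, ?_⟩
  rw [div_le_one (by positivity)]
  nlinarith

/-- the potential with ground state `ψ` -/
noncomputable def WW (ψ : T d L → ℝ) (x : T d L) : ℝ :=
  -(∑ i : Fin d, (2 * ψ x - ψ (x + Pi.single i 1) - ψ (x - Pi.single i 1))) / ψ x

theorem mpos (h : Gd lam c0 η m V ψ) : 0 < m := lt_of_lt_of_le (L_sq (L := L)).1 h.m0

theorem ww_eq (h : Gd lam c0 η m V ψ) (x : T d L) : Hop 1 (WW ψ) ψ x = 0 := by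
  have hp : 0 < ψ x := lt_of_lt_of_le one_pos (h.lo x)
  unfold Hop WW
  rw [one_mul, div_mul_cancel₀ _ hp.ne']
  ring

/-- the difference of the potentials -/
noncomputable def gg (lam c0 : ℝ) (V ψ : T d L → ℝ) (x : T d L) : ℝ := lam * V x - WW ψ x - c0

theorem gg_bd (h : Gd lam c0 η m V ψ) (x : T d L) :
    m ≤ gg lam c0 V ψ x ∧ gg lam c0 V ψ x ≤ 3 * m := by
  have hp : 0 < ψ x := lt_of_lt_of_le one_pos (h.lo x)
  have e : Hop lam V ψ x = (gg lam c0 V ψ x + c0) * ψ x := by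
    have h1 := ww_eq h x
    unfold gg
    unfold Hop at h1 ⊢
    linarith
  have h1 := h.eqn1 x
  have h2 := h.eqn2 x
  rw [e] at h1 h2
  have h3 := le_of_mul_le_mul_right h1 hp
  have h4 := le_of_mul_le_mul_right h2 hp
  exact ⟨by linarith, by linarith⟩

theorem mass (h : Gd lam c0 η m V ψ) : MassEq 1 0 0 (WW ψ) (fun x => Real.log (ψ x)) := by
  intro x
  have hp : ∀ y, 0 < ψ y := fun y => lt_of_lt_of_le one_pos (h.lo y)
  have h1 := ww_eq h x
  unfold Hop at h1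
  simp only [Real.exp_sub, Real.exp_log (hp _)]
  have h2 : ∑ i : Fin d, (1 - ψ (x + Pi.single i 1) / ψ x + (1 - ψ (x - Pi.single i 1) / ψ x)) =
      (∑ i : Fin d, (2 * ψ x - ψ (x + Pi.single i 1) - ψ (x - Pi.single i 1))) / ψ x := by
    rw [Finset.sum_div]
    refine Finset.sum_congr rfl fun i _ => ?_
    have := (hp x).ne'
    field_simp
    ring
  rw [h2]
  have h3 : ∑ i : Fin d, (2 * ψ x - ψ (x + Pi.single i 1) - ψ (x - Pi.single i 1)) =
      (-WW ψ x) * ψ x := by linarith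
  rw [h3, mul_div_assoc, div_self (hp x).ne']
  ring

/-- the energy in terms of the ground state -/
theorem energy' (h : Gd lam c0 η m V ψ) (g : XT d L) :
    (inner ℂ (Mu ψ g) (HC lam V (Mu ψ g) - ((c0 : ℝ) : ℂ) • Mu ψ g)).re =
      ∑ i : Fin d, ∑ x, ψ x * ψ (x + Pi.single i 1) * ‖g x - g (x + Pi.single i 1)‖ ^ 2 +
        ∑ x, gg lam c0 V ψ x * ‖(Mu ψ g) x‖ ^ 2 := by
  have hp : ∀ y, 0 < ψ y := fun y => lt_of_lt_of_le one_pos (h.lo y)
  have h1 := energy (mass h) g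
  simp only [Real.exp_log (hp _), zero_mul, sub_zero] at h1
  have e : HC lam V (Mu ψ g) - ((c0 : ℝ) : ℂ) • Mu ψ g =
      Aop 1 0 (WW ψ) (Mu ψ g) + Mu (gg lam c0 V ψ) (Mu ψ g) := by
    ext x
    show (HC lam V (Mu ψ g)) x - ((c0 : ℝ) : ℂ) * (Mu ψ g) x =
      ((HC 1 (WW ψ) (Mu ψ g)) x - ((0 : ℝ) : ℂ) * (Mu ψ g) x) +
        ((gg lam c0 V ψ x : ℝ) : ℂ) * (Mu ψ g) x
    rw [HC_apply, HC_apply]
    unfold gg
    push_cast
    ring
  have h2 : inner ℂ (Mu ψ g) (Mu (gg lam c0 V ψ) (Mu ψ g)) =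
      ((∑ x, gg lam c0 V ψ x * ‖(Mu ψ g) x‖ ^ 2 : ℝ) : ℂ) := by
    rw [inner_eq, Complex.ofReal_sum]
    refine Finset.sum_congr rfl fun x _ => ?_
    rw [Mu_apply (gg lam c0 V ψ)]
    have e3 : conj ((Mu ψ g) x) * (((gg lam c0 V ψ x : ℝ) : ℂ) * (Mu ψ g) x) =
        ((gg lam c0 V ψ x : ℝ) : ℂ) * (conj ((Mu ψ g) x) * (Mu ψ g) x) := by ring
    rw [e3, Complex.conj_mul', Complex.ofReal_mul, Complex.ofReal_pow]
  rw [e, inner_add_right, Complex.add_re, h1, h2, Complex.ofReal_re, Complex.ofReal_re]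

theorem gg_sum (h : Gd lam c0 η m V ψ) (f : XT d L) :
    0 ≤ ∑ x, gg lam c0 V ψ x * ‖f x‖ ^ 2 ∧
      ∑ x, gg lam c0 V ψ x * ‖f x‖ ^ 2 ≤ 3 * m * ‖f‖ ^ 2 := by
  have hm := mpos h
  constructor
  · exact Finset.sum_nonneg fun x _ => mul_nonneg (by linarith [(gg_bd h x).1]) (by positivity)
  · rw [EuclideanSpace.norm_sq_eq, Finset.mul_sum]
    exact Finset.sum_le_sum fun x _ => mul_le_mul_of_nonneg_right (gg_bd h x).2 (by positivity)

theorem mu_inv (h : Gd lam c0 η m V ψ) (f : XT d L) : Mu ψ (Mu (fun x => (ψ x)⁻¹) f) = f := by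
  ext x
  have hp : 0 < ψ x := lt_of_lt_of_le one_pos (h.lo x)
  rw [Mu_apply, Mu_apply, ← mul_assoc, ← Complex.ofReal_mul, mul_inv_cancel₀ hp.ne',
    Complex.ofReal_one, one_mul]

theorem dir_le' (h : Gd lam c0 η m V ψ) (g : XT d L) :
    Dir (fun y => g y) ≤
      (inner ℂ (Mu ψ g) (HC lam V (Mu ψ g) - ((c0 : ℝ) : ℂ) • Mu ψ g)).re := by
  rw [energy' h]
  have h1 : Dir (fun y => g y) ≤
      ∑ i : Fin d, ∑ x, ψ x * ψ (x + Pi.single i 1) * ‖g x - g (x + Pi.single i 1)‖ ^ 2 := by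
    unfold Dir
    refine Finset.sum_le_sum fun i _ => Finset.sum_le_sum fun x _ => ?_
    have a := h.lo x
    have b := h.lo (x + Pi.single i 1)
    have : 1 ≤ ψ x * ψ (x + Pi.single i 1) := by nlinarith
    nlinarith [sq_nonneg ‖g x - g (x + Pi.single i 1)‖]
  have h2 := (gg_sum h (Mu ψ g)).1
  linarith

theorem energy_le (h : Gd lam c0 η m V ψ) (g : XT d L) :
    (inner ℂ (Mu ψ g) (HC lam V (Mu ψ g) - ((c0 : ℝ) : ℂ) • Mu ψ g)).re ≤
      4 * Dir (fun y => g y) + 12 * m * ‖g‖ ^ 2 := by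
  rw [energy' h]
  have hp : ∀ y, 0 < ψ y := fun y => lt_of_lt_of_le one_pos (h.lo y)
  have h2 : ∀ y, ψ y ≤ 2 := fun y => (h.hi y).trans (by linarith [h.h1])
  have a1 : ∑ i : Fin d, ∑ x, ψ x * ψ (x + Pi.single i 1) * ‖g x - g (x + Pi.single i 1)‖ ^ 2 ≤
      4 * Dir (fun y => g y) := by
    unfold Dir
    rw [Finset.mul_sum]
    refine Finset.sum_le_sum fun i _ => ?_
    rw [Finset.mul_sum]
    refine Finset.sum_le_sum fun x _ => ?_
    have : ψ x * ψ (x + Pi.single i 1) ≤ 2 * 2 :=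
      mul_le_mul (h2 _) (h2 _) (hp _).le (by norm_num)
    have h5 := mul_le_mul_of_nonneg_right this (sq_nonneg ‖g x - g (x + Pi.single i 1)‖)
    linarith
  have a2 : ‖Mu ψ g‖ ≤ 2 * ‖g‖ := Mu_norm_le ψ 2 (by norm_num) (fun x => by
    rw [abs_of_pos (hp x)]; exact h2 x) g
  have a3 : ‖Mu ψ g‖ ^ 2 ≤ 4 * ‖g‖ ^ 2 := by
    have := pow_le_pow_left₀ (norm_nonneg _) a2 2
    linarith [this, mul_pow (2 : ℝ) ‖g‖ 2]
  have hm := mpos h
  have a4 : ∑ x, gg lam c0 V ψ x * ‖(Mu ψ g) x‖ ^ 2 ≤ 3 * m * (4 * ‖g‖ ^ 2) :=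
    (gg_sum h (Mu ψ g)).2.trans (by gcongr)
  calc _ ≤ 4 * Dir (fun y => g y) + 3 * m * (4 * ‖g‖ ^ 2) := add_le_add a1 a4
    _ = _ := by ring

theorem norm_HC (h : Gd lam c0 η m V ψ) : ‖(HC lam V : XT d L →L[ℂ] XT d L)‖ ≤ 4 * d + 1 := by
  refine HC_norm fun x => ?_
  rw [abs_mul, abs_of_nonneg h.lam0]
  have := h.hV x
  have h1 := h.lam1
  have h0 := h.lam0
  nlinarith [abs_nonneg (V x)]

theorem con (hd : 1 ≤ d) (h : Gd lam c0 η m V ψ) : Con (QC lam c0 V : XT d L →L[ℂ] XT d L) := by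
  have hb := bb_pos d
  have hre : ∀ x : XT d L, (inner ℂ x (QC lam c0 V x)).re =
      ‖x‖ ^ 2 - 1 / bb d * (inner ℂ x (HC lam V x - ((c0 : ℝ) : ℂ) • x)).re := by
    intro x
    rw [QC_apply, inner_sub_right, Complex.sub_re, inner_smul_right, Complex.re_ofReal_mul, re_self]
  refine ⟨?_, ?_, ?_⟩
  · intro x y
    rw [QC_apply, QC_apply]
    simp only [inner_sub_left, inner_sub_right, inner_smul_left, inner_smul_right,
      Complex.conj_ofReal, HC_symm]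
  · intro x
    rw [hre]
    have h1 : (inner ℂ x (HC lam V x - ((c0 : ℝ) : ℂ) • x)).re ≤ (4 * d + 4) * ‖x‖ ^ 2 := by
      refine (Complex.re_le_norm _).trans ((norm_inner_le_norm _ _).trans ?_)
      have h2 : ‖HC lam V x - ((c0 : ℝ) : ℂ) • x‖ ≤ (4 * d + 4) * ‖x‖ := by
        refine (norm_sub_le _ _).trans ?_
        rw [norm_smul, Complex.norm_real, Real.norm_eq_abs]
        have a1 := (HC lam V : XT d L →L[ℂ] XT d L).le_of_opNorm_le (norm_HC h) x
        have a2 := mul_le_mul_of_nonneg_right h.c (norm_nonneg x)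
        linarith
      calc ‖x‖ * ‖HC lam V x - ((c0 : ℝ) : ℂ) • x‖ ≤ ‖x‖ * ((4 * d + 4) * ‖x‖) := by gcongr
        _ = _ := by ring
    have hd1 : (1 : ℝ) ≤ d := by exact_mod_cast hd
    have h3 : 1 / bb d * ((4 * d + 4) * ‖x‖ ^ 2) ≤ ‖x‖ ^ 2 := by
      rw [one_div, ← mul_assoc, ← div_eq_inv_mul]
      have : (4 * (d : ℝ) + 4) / bb d ≤ 1 := by
        rw [div_le_one hb]
        unfold bb
        linarith
      nlinarith [sq_nonneg ‖x‖]
    have h4 : 1 / bb d * (inner ℂ x (HC lam V x - ((c0 : ℝ) : ℂ) • x)).re ≤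
        1 / bb d * ((4 * d + 4) * ‖x‖ ^ 2) := by gcongr
    linarith
  · intro x
    rw [hre]
    have h1 := dir_le' h (Mu (fun x => (ψ x)⁻¹) x)
    rw [mu_inv h] at h1
    have h2 := Dir_nonneg (fun y => (Mu (fun x => (ψ x)⁻¹) x) y)
    have : 0 ≤ 1 / bb d * (inner ℂ x (HC lam V x - ((c0 : ℝ) : ℂ) • x)).re := by
      apply mul_nonneg (by positivity)
      linarith
    linarith

/-- real functions -/
noncomputable def rc (g : T d L → ℝ) : XT d L := WithLp.toLp 2 fun x => (g x : ℂ)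

theorem rc_apply (g : T d L → ℝ) (x : T d L) : (rc g) x = (g x : ℂ) := rfl

theorem QC_rc (g : T d L → ℝ) : QC lam c0 V (rc g) = rc (QT c0 (bb d) lam V g) := by
  ext x
  rw [QC_apply]
  show (rc g) x - ((1 / bb d : ℝ) : ℂ) * ((HC lam V (rc g)) x - ((c0 : ℝ) : ℂ) * (rc g) x) = _
  rw [HC_apply, rc_apply, rc_apply]
  unfold QT Hop Bf
  simp only [rc_apply]
  push_cast
  ring

theorem QC_pow_rc (g : T d L → ℝ) (n : ℕ) :
    (QC lam c0 V ^ n) (rc g) = rc ((QT c0 (bb d) lam V)^[n] g) := by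
  induction n generalizing g with
  | zero => rfl
  | succ n ih =>
    have e1 : (QC lam c0 V ^ (n + 1)) (rc g) = (QC lam c0 V ^ n) (QC lam c0 V (rc g)) := by
      rw [pow_succ]; rfl
    rw [e1, QC_rc, ih, Function.iterate_succ_apply]

theorem rc_single (z : T d L) : (EuclideanSpace.single z (1 : ℂ) : XT d L) = rc (Pi.single z 1) := by
  ext x
  rw [rc_apply, PiLp.single_apply]
  by_cases h : x = z
  · subst h; simp
  · rw [if_neg h, Pi.single_eq_of_ne h]; simp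

theorem rc_norm (g : T d L → ℝ) : ‖(rc g : XT d L)‖ ^ 2 = ∑ x, g x ^ 2 := by
  rw [EuclideanSpace.norm_sq_eq]
  refine Finset.sum_congr rfl fun x _ => ?_
  rw [rc_apply, Complex.norm_real, Real.norm_eq_abs, sq_abs]

/-- the entries of `1 - (H - c₀)/b` -/
theorem QT_eq (c0 lam : ℝ) (V f : T d L → ℝ) (x : T d L) :
    QT c0 (bb d) lam V f x = (1 - (2 * d + lam * V x - c0) / bb d) * f x +
      1 / bb d * ∑ i : Fin d, (f (x + Pi.single i 1) + f (x - Pi.single i 1)) := by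
  have hb := (bb_pos d).ne'
  unfold QT Hop
  have h : ∑ i : Fin d, (2 * f x - f (x + Pi.single i 1) - f (x - Pi.single i 1)) =
      2 * d * f x - ∑ i : Fin d, (f (x + Pi.single i 1) + f (x - Pi.single i 1)) := by
    rw [eq_sub_iff_add_eq, ← Finset.sum_add_distrib]
    have : ∀ i : Fin d, 2 * f x - f (x + Pi.single i 1) - f (x - Pi.single i 1) +
        (f (x + Pi.single i 1) + f (x - Pi.single i 1)) = 2 * f x := fun i => by ring
    simp only [this]
    simp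
    ring
  rw [h]
  field_simp
  ring

theorem coef (hd : 1 ≤ d) (h : Gd lam c0 η m V ψ) (x : T d L) :
    0 ≤ 1 - (2 * d + lam * V x - c0) / bb d := by
  have hb := bb_pos d
  rw [sub_nonneg, div_le_one hb]
  have h1 := abs_le.1 (h.hV x)
  have h2 := abs_le.1 h.c
  have hd1 : (1 : ℝ) ≤ d := by exact_mod_cast hd
  have h3 : lam * V x ≤ 1 := by nlinarith [h.lam0, h.lam1]
  unfold bb
  linarith

theorem QT_mono (hd : 1 ≤ d) (h : Gd lam c0 η m V ψ) (f g : T d L → ℝ)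
    (hf : ∀ x, 0 ≤ f x) (hfg : ∀ x, f x ≤ g x) (x : T d L) :
    0 ≤ QT c0 (bb d) lam V f x ∧
      QT c0 (bb d) lam V f x ≤ QT (0 - 1 / (L : ℝ) ^ 2) (bb d) 1 (WW ψ) g x := by
  have hb := bb_pos d
  rw [QT_eq, QT_eq]
  have a1 := coef hd h x
  have a2 : 0 ≤ 1 / bb d * ∑ i : Fin d, (f (x + Pi.single i 1) + f (x - Pi.single i 1)) := by
    apply mul_nonneg (by positivity)
    exact Finset.sum_nonneg fun i _ => add_nonneg (hf _) (hf _)
  have a3 : 1 / bb d * ∑ i : Fin d, (f (x + Pi.single i 1) + f (x - Pi.single i 1)) ≤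
      1 / bb d * ∑ i : Fin d, (g (x + Pi.single i 1) + g (x - Pi.single i 1)) := by
    apply mul_le_mul_of_nonneg_left _ (by positivity)
    exact Finset.sum_le_sum fun i _ => add_le_add (hfg _) (hfg _)
  have a4 : 1 - (2 * d + lam * V x - c0) / bb d ≤
      1 - (2 * d + 1 * WW ψ x - (0 - 1 / (L : ℝ) ^ 2)) / bb d := by
    have : (2 * d + 1 * WW ψ x - (0 - 1 / (L : ℝ) ^ 2)) / bb d ≤
        (2 * d + lam * V x - c0) / bb d := by
      have h5 := (gg_bd h x).1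
      have h6 := h.m0
      unfold gg at h5
      apply div_le_div_of_nonneg_right _ hb.le
      linarith
    linarith
  have a5 : (1 - (2 * d + lam * V x - c0) / bb d) * f x ≤
      (1 - (2 * d + 1 * WW ψ x - (0 - 1 / (L : ℝ) ^ 2)) / bb d) * g x :=
    mul_le_mul a4 (hfg x) (hf x) (a1.trans a4)
  exact ⟨add_nonneg (mul_nonneg a1 (hf x)) a2, add_le_add a5 a3⟩

theorem QT_iter (hd : 1 ≤ d) (h : Gd lam c0 η m V ψ) (f : T d L → ℝ)
    (hf : ∀ x, 0 ≤ f x) (n : ℕ) (x : T d L) :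
    0 ≤ (QT c0 (bb d) lam V)^[n] f x ∧
      (QT c0 (bb d) lam V)^[n] f x ≤ (QT (0 - 1 / (L : ℝ) ^ 2) (bb d) 1 (WW ψ))^[n] f x := by
  induction n generalizing x with
  | zero => exact ⟨hf x, le_rfl⟩
  | succ n ih =>
    rw [Function.iterate_succ_apply', Function.iterate_succ_apply']
    exact QT_mono hd h _ _ (fun y => (ih y).1) (fun y => (ih y).2) x

theorem single_nonneg (z x : T d L) : 0 ≤ (Pi.single z (1 : ℝ) : T d L → ℝ) x := by
  by_cases h : x = z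
  · subst h; simp
  · rw [Pi.single_eq_of_ne h]

/-- heat kernel bound -/
theorem heat (d : ℕ) (hd : 3 ≤ d) : ∃ C : ℝ, 1 ≤ C ∧ ∀ (L : ℕ) [NeZero L] (lam c0 η m : ℝ)
    (V ψ : T d L → ℝ), Gd lam c0 η m V ψ → ∀ (z : T d L) (n p : ℕ), n ≤ p →
      ‖(QC lam c0 V ^ p) (EuclideanSpace.single z 1 : XT d L)‖ ^ 2 * (n : ℝ) ^ ((d : ℝ) / 2) ≤ C := by
  obtain ⟨C, hC, H⟩ := torus d hd (bb d) le_rfl
  refine ⟨max 1 C, le_max_left _ _, ?_⟩
  intro L _ lam c0 η m V ψ h z n p hnm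
  have hd1 : 1 ≤ d := by omega
  have h2 : ∀ y, ψ y ≤ 2 := fun y => (h.hi y).trans (by linarith [h.h1])
  have h3 := H L 1 0 (WW ψ) ψ h.lo h2 (fun x => by rw [ww_eq h x, zero_mul]) z n
  refine le_trans ?_ (h3.trans (le_max_right _ _))
  apply mul_le_mul_of_nonneg_right _ (by positivity)
  have e1 : (QC lam c0 V ^ p) (EuclideanSpace.single z 1 : XT d L) =
      (QC lam c0 V ^ (p - n)) ((QC lam c0 V ^ n) (EuclideanSpace.single z 1)) := by
    rw [← pow_apply_add]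
    congr 2
    omega
  have e2 := pow_norm (con hd1 h) (p - n) ((QC lam c0 V ^ n) (EuclideanSpace.single z 1 : XT d L))
  rw [← e1] at e2
  have e3 : ‖(QC lam c0 V ^ p) (EuclideanSpace.single z 1 : XT d L)‖ ^ 2 ≤
      ‖(QC lam c0 V ^ n) (EuclideanSpace.single z 1 : XT d L)‖ ^ 2 :=
    pow_le_pow_left₀ (norm_nonneg _) e2 2
  refine e3.trans ?_
  rw [rc_single, QC_pow_rc, rc_norm]
  refine Finset.sum_le_sum fun x _ => ?_
  have := QT_iter hd1 h _ (single_nonneg z) n x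
  exact pow_le_pow_left₀ this.1 this.2 2

/-- mass of the heat kernel -/
theorem mass_le (hd : 1 ≤ d) (h : Gd lam c0 η m V ψ) (z : T d L) (n : ℕ) :
    ∑ x, (QT c0 (bb d) lam V)^[n] (Pi.single z 1) x ≤ 2 := by
  have hb := bb_pos d
  have hp : ∀ y, 0 < ψ y := fun y => lt_of_lt_of_le one_pos (h.lo y)
  have h2 : ∀ y, ψ y ≤ 2 := fun y => (h.hi y).trans (by linarith [h.h1])
  have hsym : ∀ f : T d L → ℝ, (∀ x, 0 ≤ f x) → ∑ x, ψ x * QT c0 (bb d) lam V f x ≤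
      ∑ x, ψ x * f x := by
    intro f hf
    have h1 := (con hd h).sym (rc ψ) (rc f)
    rw [QC_rc, QC_rc] at h1
    have hin : ∀ a b : T d L → ℝ, inner ℂ (rc a : XT d L) (rc b) = ((∑ x, a x * b x : ℝ) : ℂ) := by
      intro a b
      rw [inner_eq, Complex.ofReal_sum]
      refine Finset.sum_congr rfl fun x _ => ?_
      rw [rc_apply, rc_apply, Complex.conj_ofReal, Complex.ofReal_mul]
    rw [hin, hin] at h1
    have h4 := Complex.ofReal_injective h1
    rw [← h4]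
    refine Finset.sum_le_sum fun x _ => mul_le_mul_of_nonneg_right ?_ (hf x)
    unfold QT
    have h5 := h.eqn1 x
    have h6 := mpos h
    have h7 : 0 ≤ 1 / bb d * (Hop lam V ψ x - c0 * ψ x) := by
      apply mul_nonneg (by positivity)
      nlinarith [hp x]
    linarith
  have key : ∀ n : ℕ, ∑ x, ψ x * (QT c0 (bb d) lam V)^[n] (Pi.single z 1) x ≤ 2 := by
    intro n
    induction n with
    | zero =>
      rw [Finset.sum_eq_single z]
      · simp [h2 z]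
      · intro y _ hy
        simp [Pi.single_eq_of_ne hy]
      · intro hn
        exact absurd (Finset.mem_univ _) hn
    | succ n ih =>
      simp only [Function.iterate_succ_apply']
      exact (hsym _ fun x => (QT_iter hd h _ (single_nonneg z) n x).1).trans ih
  refine le_trans (Finset.sum_le_sum fun x _ => ?_) (key n)
  have h6 := (QT_iter hd h _ (single_nonneg z) n x).1
  have := h.lo x
  nlinarith

/-- the smoothed heat kernel -/
theorem jheat (hd : 1 ≤ d) (h : Gd lam c0 η m V ψ) (J : XT d L →L[ℂ] XT d L) (β : ℝ)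
    (hJ : ∀ x, ‖J (EuclideanSpace.single x 1)‖ ≤ β) (z : T d L) (n : ℕ) :
    ‖J ((QC lam c0 V ^ n) (EuclideanSpace.single z 1))‖ ≤ 2 * β := by
  have hβ : 0 ≤ β := (norm_nonneg _).trans (hJ z)
  rw [rc_single, QC_pow_rc]
  set g := (QT c0 (bb d) lam V)^[n] (Pi.single z 1) with hg
  have hg0 : ∀ x, 0 ≤ g x := fun x => (QT_iter hd h _ (single_nonneg z) n x).1
  have e : (rc g : XT d L) = ∑ x, (g x : ℂ) • (EuclideanSpace.single x 1 : XT d L) := by
    ext y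
    rw [rc_apply, WithLp.ofLp_sum, Finset.sum_apply, Finset.sum_eq_single y]
    · simp
    · intro x _ hx
      show (g x : ℂ) * (EuclideanSpace.single x (1 : ℂ) : XT d L) y = 0
      rw [PiLp.single_apply, if_neg (Ne.symm hx), mul_zero]
    · intro hn
      exact absurd (Finset.mem_univ _) hn
  rw [e, map_sum]
  refine (norm_sum_le _ _).trans ?_
  calc ∑ x, ‖J ((g x : ℂ) • (EuclideanSpace.single x 1 : XT d L))‖ ≤ ∑ x, g x * β := by
        refine Finset.sum_le_sum fun x _ => ?_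
        rw [map_smul, norm_smul, Complex.norm_real, Real.norm_eq_abs, abs_of_nonneg (hg0 x)]
        exact mul_le_mul_of_nonneg_left (hJ x) (hg0 x)
    _ = (∑ x, g x) * β := by rw [Finset.sum_mul]
    _ ≤ 2 * β := by
        gcongr
        exact mass_le hd h z n

end Pool.Agent.V8H95.MF
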