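import Mathlib

/-!
Powers of an operator `Q` with `0 ≤ Q ≤ 1` on a complex inner product space.
-/

set_option autoImplicit false

open Complex

namespace Pool.Agent.V8H95.MF

variable {E : Type*} [NormedAddCommGroup E] [InnerProductSpace ℂ E]

/-- `0 ≤ Q ≤ 1` -/
structure Con (Q : E →L[ℂ] E) : Prop where
  sym : ∀ x y, inner ℂ (Q x) y = inner ℂ x (Q y)
  pos : ∀ x, 0 ≤ (inner ℂ x (Q x)).re
  le : ∀ x, (inner ℂ x (Q x)).re ≤ ‖x‖ ^ 2

variable {Q : E →L[ℂ] E}

theorem re_self (x : E) : (inner ℂ x x : ℂ).re = ‖x‖ ^ 2 := by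
  rw [inner_self_eq_norm_sq_to_K]
  simp [← Complex.ofReal_pow]

theorem pow_sym (h : Con Q) (n : ℕ) (x y : E) : inner ℂ ((Q ^ n) x) y = inner ℂ x ((Q ^ n) y) := by
  induction n generalizing x y with
  | zero => simp
  | succ n ih =>
    have e1 : (Q ^ (n + 1)) x = Q ((Q ^ n) x) := by rw [pow_succ']; rfl
    have e2 : (Q ^ (n + 1)) y = (Q ^ n) (Q y) := by rw [pow_succ]; rfl
    rw [e1, e2, h.sym, ih]

theorem pow_apply_add (m n : ℕ) (x : E) : (Q ^ (m + n)) x = (Q ^ m) ((Q ^ n) x) := by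
  rw [pow_add]; rfl

/-- `Q (1 - Q) ≥ 0` -/
theorem q_one_sub (h : Con Q) (x : E) : 0 ≤ (inner ℂ x (Q (x - Q x))).re := by
  have e : inner ℂ x (Q (x - Q x)) = inner ℂ (x - Q x) (Q (x - Q x)) +
      (inner ℂ (Q x) (Q x) - inner ℂ (Q x) (Q (Q x))) := by
    rw [← inner_sub_right, ← map_sub]
    have : inner ℂ (Q x) (Q x - Q (Q x)) = inner ℂ (Q x) (Q (x - Q x)) := by rw [map_sub]
    rw [map_sub Q x (Q x), ← map_sub Q x (Q x)]
    rw [map_sub Q x (Q x)]
    simp only [inner_sub_left, inner_sub_right]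
    ring
  rw [e, Complex.add_re, Complex.sub_re, re_self]
  have h1 := h.pos (x - Q x)
  have h2 := h.le (Q x)
  linarith

/-- `Q^m (1 - Q) ≥ 0` -/
theorem pow_one_sub (h : Con Q) (m : ℕ) (x : E) : 0 ≤ (inner ℂ x ((Q ^ m) (x - Q x))).re := by
  have key : ∀ j : ℕ, ∀ z : E, (inner ℂ x ((Q ^ (j + j)) z)) = inner ℂ ((Q ^ j) x) ((Q ^ j) z) := by
    intro j z
    rw [pow_apply_add, ← pow_sym h]
  rcases Nat.even_or_odd m with ⟨j, hj⟩ | ⟨j, hj⟩
  · rw [hj, key, map_sub]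
    have e : (Q ^ j) (Q x) = Q ((Q ^ j) x) := by
      have : (Q ^ j) (Q x) = (Q ^ (j + 1)) x := by rw [pow_succ]; rfl
      rw [this, pow_succ']; rfl
    rw [e, inner_sub_right, Complex.sub_re, re_self]
    have := h.le ((Q ^ j) x)
    linarith
  · have e0 : m = (j + j) + 1 := by omega
    have e1 : (Q ^ m) (x - Q x) = (Q ^ (j + j)) (Q (x - Q x)) := by
      rw [e0, pow_succ]; rfl
    rw [e1, key]
    have e : (Q ^ j) (Q (x - Q x)) = Q ((Q ^ j) x - Q ((Q ^ j) x)) := by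
      have h1 : (Q ^ j) (Q (x - Q x)) = (Q ^ (j + 1)) (x - Q x) := by rw [pow_succ]; rfl
      have h2 : Q ((Q ^ j) x) = (Q ^ (j + 1)) x := by rw [pow_succ']; rfl
      have h3 : (Q ^ (j + 1)) (x - Q x) = Q ((Q ^ j) (x - Q x)) := by rw [pow_succ']; rfl
      have h4 : (Q ^ j) (Q x) = (Q ^ (j + 1)) x := by rw [pow_succ]; rfl
      rw [h1, h3, map_sub, h2, h4]
    rw [e]
    exact q_one_sub h _

/-- telescoping -/
theorem tele (m : ℕ) (x : E) : x - (Q ^ m) x = ∑ j ∈ Finset.range m, (Q ^ j) (x - Q x) := by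
  induction m with
  | zero => simp
  | succ m ih =>
    rw [Finset.sum_range_succ, ← ih, map_sub]
    have : (Q ^ m) (Q x) = (Q ^ (m + 1)) x := by rw [pow_succ]; rfl
    rw [this]
    abel

/-- `Q^m (1 - Q)` is decreasing in `m` -/
theorem anti (h : Con Q) (m : ℕ) (x : E) :
    (inner ℂ x ((Q ^ (m + 1)) (x - Q x))).re ≤ (inner ℂ x ((Q ^ m) (x - Q x))).re := by
  have e : (Q ^ m) (x - Q x) - (Q ^ (m + 1)) (x - Q x) = (Q ^ m) ((x - Q x) - Q (x - Q x)) := by
    rw [map_sub (Q ^ m) (x - Q x)]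
    rw [pow_succ]; rfl
  have h1 : 0 ≤ (inner ℂ x ((Q ^ m) ((x - Q x) - Q (x - Q x)))).re := by
    have key : ∀ j : ℕ, ∀ z : E,
        (inner ℂ x ((Q ^ (j + j)) z)) = inner ℂ ((Q ^ j) x) ((Q ^ j) z) := by
      intro j z
      rw [pow_apply_add, ← pow_sym h]
    have hsq : ∀ y : E, 0 ≤ (inner ℂ y ((y - Q y) - Q (y - Q y))).re := by
      intro y
      have : inner ℂ y ((y - Q y) - Q (y - Q y)) = inner ℂ (y - Q y) (y - Q y) := by
        simp only [map_sub, inner_sub_left, inner_sub_right, h.sym]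
      rw [this, re_self]
      positivity
    have hsq2 : ∀ y : E, 0 ≤ (inner ℂ y (Q ((y - Q y) - Q (y - Q y)))).re := by
      intro y
      have : inner ℂ y (Q ((y - Q y) - Q (y - Q y))) = inner ℂ (y - Q y) (Q (y - Q y)) := by
        simp only [map_sub, inner_sub_left, inner_sub_right, h.sym]
      rw [this]
      exact h.pos _
    have hc : ∀ (j : ℕ), (Q ^ j) ((x - Q x) - Q (x - Q x)) =
        ((Q ^ j) x - Q ((Q ^ j) x)) - Q ((Q ^ j) x - Q ((Q ^ j) x)) := by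
      intro j
      have hcm : ∀ z : E, (Q ^ j) (Q z) = Q ((Q ^ j) z) := by
        intro z
        have : (Q ^ j) (Q z) = (Q ^ (j + 1)) z := by rw [pow_succ]; rfl
        rw [this, pow_succ']; rfl
      simp only [map_sub, hcm]
    rcases Nat.even_or_odd m with ⟨j, hj⟩ | ⟨j, hj⟩
    · rw [hj, key, hc]
      exact hsq _
    · have e0 : m = (j + j) + 1 := by omega
      have e1 : ∀ z : E, (Q ^ m) z = (Q ^ (j + j)) (Q z) := by
        intro z
        rw [e0, pow_succ]; rfl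
      have hcm : ∀ z : E, (Q ^ j) (Q z) = Q ((Q ^ j) z) := by
        intro z
        have : (Q ^ j) (Q z) = (Q ^ (j + 1)) z := by rw [pow_succ]; rfl
        rw [this, pow_succ']; rfl
      rw [e1, key, hcm, hc]
      exact hsq2 _
  have h2 := congrArg (fun z => (inner ℂ x z : ℂ).re) e
  simp only [inner_sub_right, Complex.sub_re] at h2
  linarith

/-- `(x, (1 - Q^m) x) ≥ 0` -/
theorem sub_pow_nonneg (h : Con Q) (m : ℕ) (x : E) : 0 ≤ (inner ℂ x (x - (Q ^ m) x)).re := by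
  rw [tele, inner_sum, Complex.re_sum]
  exact Finset.sum_nonneg fun j _ => pow_one_sub h j x

/-- `1 - Q^m ≤ m (1 - Q)` -/
theorem sub_pow_le (h : Con Q) (m : ℕ) (x : E) :
    (inner ℂ x (x - (Q ^ m) x)).re ≤ m * (inner ℂ x (x - Q x)).re := by
  rw [tele, inner_sum, Complex.re_sum]
  have h1 : ∀ j, (inner ℂ x ((Q ^ j) (x - Q x))).re ≤ (inner ℂ x (x - Q x)).re := by
    intro j
    induction j with
    | zero => simp
    | succ j ih => exact (anti h j x).trans ih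
  calc ∑ j ∈ Finset.range m, (inner ℂ x ((Q ^ j) (x - Q x))).re
      ≤ ∑ _j ∈ Finset.range m, (inner ℂ x (x - Q x)).re := Finset.sum_le_sum fun j _ => h1 j
    _ = m * (inner ℂ x (x - Q x)).re := by
        rw [Finset.sum_const, Finset.card_range, nsmul_eq_mul]

/-- powers are contractions -/
theorem con_norm (h : Con Q) (x : E) : ‖Q x‖ ≤ ‖x‖ := by
  have h1 := q_one_sub h x
  have e : inner ℂ x (Q (x - Q x)) = inner ℂ x (Q x) - inner ℂ (Q x) (Q x) := by
    rw [map_sub, inner_sub_right, h.sym]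
  rw [e, Complex.sub_re, re_self] at h1
  have h2 := h.le x
  exact (pow_le_pow_iff_left₀ (norm_nonneg _) (norm_nonneg _) two_ne_zero).1 (by linarith)

theorem pow_norm (h : Con Q) (m : ℕ) (x : E) : ‖(Q ^ m) x‖ ≤ ‖x‖ := by
  induction m with
  | zero => simp
  | succ m ih =>
    have e1 : (Q ^ (m + 1)) x = Q ((Q ^ m) x) := by rw [pow_succ']; rfl
    rw [e1]
    exact (con_norm h _).trans ih

/-- `(1 - Q^m)² ≤ 1 - Q^m` -/
theorem sub_pow_sq (h : Con Q) (m : ℕ) (x : E) :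
    ‖x - (Q ^ m) x‖ ^ 2 ≤ (inner ℂ x (x - (Q ^ m) x)).re := by
  have h1 : 0 ≤ (inner ℂ x ((Q ^ m) (x - (Q ^ m) x))).re := by
    have e : (Q ^ m) (x - (Q ^ m) x) = ∑ j ∈ Finset.range m, (Q ^ (m + j)) (x - Q x) := by
      rw [tele, map_sum]
      refine Finset.sum_congr rfl fun j _ => ?_
      rw [pow_apply_add]
    rw [e, inner_sum, Complex.re_sum]
    exact Finset.sum_nonneg fun j _ => pow_one_sub h _ x
  have e2 : inner ℂ (x - (Q ^ m) x) (x - (Q ^ m) x) =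
      inner ℂ x (x - (Q ^ m) x) - inner ℂ x ((Q ^ m) (x - (Q ^ m) x)) := by
    rw [inner_sub_left, pow_sym h]
  have e3 := congrArg Complex.re e2
  rw [re_self, Complex.sub_re] at e3
  linarith

/-- `(m + 1) Q^m (1 - Q) ≤ 1` -/
theorem smooth (h : Con Q) (m : ℕ) (x : E) :
    (m + 1) * (inner ℂ x ((Q ^ m) (x - Q x))).re ≤ ‖x‖ ^ 2 := by
  have h1 : ∀ k, (inner ℂ x ((Q ^ (m + k)) (x - Q x))).re ≤
      (inner ℂ x ((Q ^ m) (x - Q x))).re := by
    intro k
    induction k with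
    | zero => simp
    | succ k ih => exact (anti h (m + k) x).trans ih
  have h1' : ∀ j, j ≤ m → (inner ℂ x ((Q ^ m) (x - Q x))).re ≤
      (inner ℂ x ((Q ^ j) (x - Q x))).re := by
    intro j hj
    obtain ⟨k, rfl⟩ := Nat.exists_eq_add_of_le hj
    clear hj h1
    induction k with
    | zero => simp
    | succ k ih => exact (anti h (j + k) x).trans ih
  have h2 : (inner ℂ x (x - (Q ^ (m + 1)) x)).re =
      ∑ j ∈ Finset.range (m + 1), (inner ℂ x ((Q ^ j) (x - Q x))).re := by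
    rw [tele, inner_sum, Complex.re_sum]
  have h3 : ((m + 1 : ℕ) : ℝ) * (inner ℂ x ((Q ^ m) (x - Q x))).re ≤
      ∑ j ∈ Finset.range (m + 1), (inner ℂ x ((Q ^ j) (x - Q x))).re := by
    calc ((m + 1 : ℕ) : ℝ) * (inner ℂ x ((Q ^ m) (x - Q x))).re =
        ∑ _j ∈ Finset.range (m + 1), (inner ℂ x ((Q ^ m) (x - Q x))).re := by
          rw [Finset.sum_const, Finset.card_range, nsmul_eq_mul]
      _ ≤ _ := Finset.sum_le_sum fun j hj => h1' j (Nat.lt_succ_iff.1 (Finset.mem_range.1 hj))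
  have h4 : (inner ℂ x (x - (Q ^ (m + 1)) x)).re ≤ ‖x‖ ^ 2 := by
    rw [inner_sub_right, Complex.sub_re, re_self]
    have : 0 ≤ (inner ℂ x ((Q ^ (m + 1)) x)).re := by
      rcases Nat.even_or_odd (m + 1) with ⟨j, hj⟩ | ⟨j, hj⟩
      · rw [hj, pow_apply_add, ← pow_sym h, re_self]; positivity
      · have e0 : m + 1 = j + (1 + j) := by omega
        rw [e0, pow_apply_add, ← pow_sym h, pow_apply_add, pow_one]
        exact h.pos _
    linarith
  rw [Nat.cast_add, Nat.cast_one] at h3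
  linarith

/-- the smoothed vector has small energy -/
theorem smooth' (h : Con Q) (n : ℕ) (x : E) :
    (2 * n + 1) * (inner ℂ ((Q ^ n) x) ((Q ^ n) x - Q ((Q ^ n) x))).re ≤ ‖x‖ ^ 2 := by
  have h1 := smooth h (n + n) x
  have e : (Q ^ (n + n)) (x - Q x) = (Q ^ n) ((Q ^ n) x - Q ((Q ^ n) x)) := by
    rw [pow_apply_add, map_sub (Q ^ n) x (Q x)]
    congr 2
    have e1 : (Q ^ n) (Q x) = (Q ^ (n + 1)) x := by rw [pow_succ]; rfl
    rw [e1, pow_succ']; rfl
  rw [e, ← pow_sym h, Nat.cast_add, ← two_mul] at h1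
  exact h1

end Pool.Agent.V8H95.MF
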