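import Pool.Agent.V8H95.MF.Dress

/-!
Sensitivity of the smoothed propagator to the potential at one site, square summed over the sites.
-/

set_option autoImplicit false
set_option linter.unusedSectionVars false

open Complex MeasureTheory
open scoped BigOperators ComplexConjugate

namespace Pool.Agent.V8H95.MF

open Pool.Agent.H4R2.AE Pool.Agent.V8H99.AD

variable {d L : ℕ} [NeZero L]

theorem inner_single' (w : T d L) (y : XT d L) :
    (inner ℂ (EuclideanSpace.single w (1 : ℂ) : XT d L) y : ℂ) = y w := by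
  rw [EuclideanSpace.inner_single_left]
  simp

theorem HC_update (lam s : ℝ) (V : T d L → ℝ) (w : T d L) (y : XT d L) :
    HC lam (Function.update V w s) y = HC lam V y +
      (((lam * (s - V w) : ℝ) : ℂ) * inner ℂ (EuclideanSpace.single w (1 : ℂ) : XT d L) y) •
        (EuclideanSpace.single w (1 : ℂ) : XT d L) := by
  rw [inner_single']
  ext x
  rw [HC_apply, PiLp.add_apply, HC_apply]
  show _ = _ + ((lam * (s - V w) : ℝ) : ℂ) * y w * (EuclideanSpace.single w (1 : ℂ) : XT d L) x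
  rw [PiLp.single_apply]
  by_cases h : x = w
  · subst h
    rw [Function.update_self, if_pos rfl]
    push_cast
    ring
  · rw [Function.update_of_ne h, if_neg h]
    ring

theorem QC_update (lam c0 s : ℝ) (V : T d L → ℝ) (w : T d L) (y : XT d L) :
    QC lam c0 (Function.update V w s) y = QC lam c0 V y +
      (((-(lam * (s - V w) / bb d) : ℝ) : ℂ) *
        inner ℂ (EuclideanSpace.single w (1 : ℂ) : XT d L) y) •
        (EuclideanSpace.single w (1 : ℂ) : XT d L) := by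
  rw [QC_apply, QC_apply, HC_update]
  have : ((-(lam * (s - V w) / bb d) : ℝ) : ℂ) =
      -(((1 / bb d : ℝ) : ℂ) * ((lam * (s - V w) : ℝ) : ℂ)) := by
    push_cast
    ring
  rw [this]
  module

theorem sum_diff (d : ℕ) (hd : 3 ≤ d) : ∃ C : ℝ, 1 ≤ C ∧ ∀ (L : ℕ) [NeZero L] (lam c0 η E0 : ℝ)
    (V ψ : T d L → ℝ), Gd lam c0 η E0 V ψ → ∀ s : ℝ, |s| ≤ 1 → ∀ n n' : ℕ, 1 ≤ n' → n' ≤ n →
    ∀ (S : Finset (T d L)), (∀ w ∈ S, ∃ (E1 : ℝ) (ψ1 : T d L → ℝ),
      Gd lam c0 η E1 (Function.update V w s) ψ1) → ∀ (u : XT d L) (t : ℝ),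
      (∑ w ∈ S, ‖(QF d L ^ n') (TT (HC lam (Function.update V w s))
        (QC lam c0 (Function.update V w s)) n t u) -
        (QF d L ^ n') (TT (HC lam V) (QC lam c0 V) n t u)‖ ^ 2) * (n' : ℝ) ^ ((d : ℝ) / 2) ≤
      C * (lam * (n + |t|) * ‖u‖) ^ 2 := by
  obtain ⟨C, hC, H⟩ := heat d hd
  refine ⟨64 * C, by linarith, ?_⟩
  intro L _ lam c0 η E0 V ψ h s hs n n' hn' hnn S hS u t
  have hd1 : 1 ≤ d := by omega
  have hb := bb_pos d
  have hb1 : 1 ≤ bb d := by
    unfold bb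
    have : (0 : ℝ) ≤ d := Nat.cast_nonneg d
    linarith
  have hn0 : (0 : ℝ) < n' := by exact_mod_cast hn'
  set D : ℝ := (n' : ℝ) ^ ((d : ℝ) / 2) with hD
  have hD0 : 0 < D := Real.rpow_pos_of_pos hn0 _
  set β : ℝ := Real.sqrt (C / D) with hβ
  have hβ0 : 0 ≤ β := Real.sqrt_nonneg _
  have hβ2 : β ^ 2 = C / D := Real.sq_sqrt (by positivity)
  have hle : ∀ (a : ℝ), 0 ≤ a → a ^ 2 * D ≤ C → a ≤ β := by
    intro a ha hh
    apply Real.le_sqrt_of_sq_le
    rw [le_div_iff₀ hD0]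
    exact hh
  have hw : ∀ w ∈ S, ‖(QF d L ^ n') (TT (HC lam (Function.update V w s))
        (QC lam c0 (Function.update V w s)) n t u) -
        (QF d L ^ n') (TT (HC lam V) (QC lam c0 V) n t u)‖ ≤ 2 * lam * (2 * β) *
      (∑ j ∈ Finset.range n, ‖((QC lam c0 V ^ (n - 1 - j)) u) w‖ +
        |∫ s in (0 : ℝ)..t, ‖(ev (HC lam V) s ((QC lam c0 V ^ n) u)) w‖| +
        ∑ j ∈ Finset.range n,
          ‖((QC lam c0 V ^ (n - 1 - j)) (ev (HC lam V) t ((QC lam c0 V ^ n) u))) w‖) := by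
    intro w hwS
    obtain ⟨E1, ψ1, h1⟩ := hS w hwS
    have hvs : |lam * (s - V w)| ≤ 2 * lam := by
      rw [abs_mul, abs_of_nonneg h.lam0]
      have a1 := abs_le.1 hs
      have a2 := abs_le.1 (h.hV w)
      have : |s - V w| ≤ 2 := by rw [abs_le]; constructor <;> linarith
      nlinarith [h.lam0]
    have key := tt_pert (H := HC lam V) (H' := HC lam (Function.update V w s))
      (Q := QC lam c0 V) (Q' := QC lam c0 (Function.update V w s)) (J := QF d L ^ n')
      (HC_sa _ _) (comm_QC _ _ _) (lam * (s - V w)) (-(lam * (s - V w) / bb d))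
      (EuclideanSpace.single w (1 : ℂ) : XT d L) (HC_update lam s V w) (QC_update lam c0 s V w)
      (2 * β) (2 * lam) n hvs (by
        rw [abs_neg, abs_div, abs_of_pos hb]
        exact (div_le_self (abs_nonneg _) hb1).trans hvs)
      (fun y => pow_norm (con hd1 (gd_free d L)) n' y)
      (fun j _ => jheat hd1 h1 (QF d L ^ n') β (fun x => by
        apply hle _ (norm_nonneg _)
        exact H L 0 _ 0 _ 0 (fun _ => 1) (gd_free d L) x n' n' le_rfl) w j)
      (fun j => by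
        have a1 : ‖(QC lam c0 (Function.update V w s) ^ (n + j))
            (EuclideanSpace.single w (1 : ℂ) : XT d L)‖ ≤ β := by
          apply hle _ (norm_nonneg _)
          exact H L lam c0 η E1 _ ψ1 h1 w n' (n + j) (by omega)
        linarith) u t
    simp only [inner_single'] at key
    exact key
  have hsum := g_norm (H := HC lam V) (Q := QC lam c0 V) (HC_sa lam V) (con hd1 h) n u t
  have h4 : ∑ w ∈ S, ‖(QF d L ^ n') (TT (HC lam (Function.update V w s))
        (QC lam c0 (Function.update V w s)) n t u) -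
        (QF d L ^ n') (TT (HC lam V) (QC lam c0 V) n t u)‖ ^ 2 ≤
      (2 * lam * (2 * β)) ^ 2 * ((2 * n + |t|) * ‖u‖) ^ 2 := by
    calc _ ≤ ∑ w ∈ S, (2 * lam * (2 * β)) ^ 2 *
          (∑ j ∈ Finset.range n, ‖((QC lam c0 V ^ (n - 1 - j)) u) w‖ +
        |∫ s in (0 : ℝ)..t, ‖(ev (HC lam V) s ((QC lam c0 V ^ n) u)) w‖| +
        ∑ j ∈ Finset.range n,
          ‖((QC lam c0 V ^ (n - 1 - j)) (ev (HC lam V) t ((QC lam c0 V ^ n) u))) w‖) ^ 2 := by
          refine Finset.sum_le_sum fun w hwS => ?_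
          rw [← mul_pow]
          exact pow_le_pow_left₀ (norm_nonneg _) (hw w hwS) 2
      _ ≤ ∑ w, (2 * lam * (2 * β)) ^ 2 *
          (∑ j ∈ Finset.range n, ‖((QC lam c0 V ^ (n - 1 - j)) u) w‖ +
        |∫ s in (0 : ℝ)..t, ‖(ev (HC lam V) s ((QC lam c0 V ^ n) u)) w‖| +
        ∑ j ∈ Finset.range n,
          ‖((QC lam c0 V ^ (n - 1 - j)) (ev (HC lam V) t ((QC lam c0 V ^ n) u))) w‖) ^ 2 :=
          Finset.sum_le_sum_of_subset_of_nonneg (Finset.subset_univ _)
            fun _ _ _ => by positivity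
      _ ≤ _ := by
          rw [← Finset.mul_sum]
          gcongr
  have e1 : (2 * lam * (2 * β)) ^ 2 * ((2 * n + |t|) * ‖u‖) ^ 2 * D =
      16 * C * (lam * (2 * n + |t|) * ‖u‖) ^ 2 := by
    have : (2 * lam * (2 * β)) ^ 2 = 16 * lam ^ 2 * β ^ 2 := by ring
    rw [this, hβ2]
    field_simp
  have h5 : lam * (2 * n + |t|) * ‖u‖ ≤ 2 * (lam * (n + |t|) * ‖u‖) := by
    have a1 := h.lam0
    have a2 : 0 ≤ lam * |t| * ‖u‖ := by positivity
    nlinarith
  calc _ ≤ (2 * lam * (2 * β)) ^ 2 * ((2 * n + |t|) * ‖u‖) ^ 2 * D := by gcongr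
    _ = 16 * C * (lam * (2 * n + |t|) * ‖u‖) ^ 2 := e1
    _ ≤ 16 * C * (2 * (lam * (n + |t|) * ‖u‖)) ^ 2 := by
        have a1 := h.lam0
        gcongr
    _ = _ := by ring

end Pool.Agent.V8H95.MF
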