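import Pool.Agent.V8H95.MF.Var

/-!
Self-averaging of the propagator on the torus for slow waves.
-/

set_option autoImplicit false
set_option linter.unusedSectionVars false

open Complex MeasureTheory
open scoped BigOperators ComplexConjugate

namespace Pool.Agent.V8H95.MF

open Pool.Agent.H4R2.AE Pool.Agent.V8H99.AD

theorem mf_torus (d : ℕ) (hd : 3 ≤ d) : ∃ C : ℝ, 1 ≤ C ∧ ∀ (L : ℕ) [NeZero L] (lam c0 η ma θ : ℝ)
    (μ : Measure ℝ) [IsProbabilityMeasure μ], (∀ᵐ s ∂μ, |s| ≤ 1) → ∀ G : Set (T d L → ℝ),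
    MeasurableSet G → (∀ V ∈ G, ∃ ψ : T d L → ℝ, Gd lam c0 η ma V ψ) → 0 ≤ η → 0 ≤ θ →
    ∀ n n' : ℕ, 1 ≤ n' → n' ≤ n → n' * (1 / (2 * n + 1) + 1 / (L : ℝ) ^ 2) ≤ θ ^ 2 →
    ∀ (u : XT d L),
    ((2 * n : ℕ) : ℝ) * (4 * Dir (fun y => u y) + 12 * ma * ‖u‖ ^ 2) ≤
      bb d * (θ * ‖u‖) ^ 2 →
    ∀ t : ℝ, ∃ m : XT d L,
      ∫ V, ‖ev (HC lam V) t u - m‖ ^ 2 ∂(Measure.pi fun _ : T d L => μ) ≤
      (8 * (η + θ) ^ 2 + 2 * C * (lam * (n + |t|)) ^ 2 / (n' : ℝ) ^ ((d : ℝ) / 2) +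
        6 * (L : ℝ) ^ d * (Measure.pi fun _ : T d L => μ).real Gᶜ) * ‖u‖ ^ 2 := by
  obtain ⟨C, hC, H⟩ := var_torus d hd
  refine ⟨C, hC, ?_⟩
  intro L _ lam c0 η ma θ μ _ hμ G hG hGd hη hθ n n' hn' hnn hnθ u hu t
  have hd1 : 1 ≤ d := by omega
  obtain ⟨m, hm⟩ := H L lam c0 η μ hμ G hG (fun V hV => ⟨ma, hGd V hV⟩) n n' hn' hnn u t
  refine ⟨m, ?_⟩
  set P : Measure (T d L → ℝ) := Measure.pi fun _ : T d L => μ with hP
  set F : (T d L → ℝ) → XT d L :=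
    G.indicator (fun V => (QF d L ^ n') (TT (HC lam V) (QC lam c0 V) n t u)) with hF
  have hFm : Measurable F := by
    refine Measurable.indicator ?_ hG
    exact ((QF d L ^ n').continuous.comp (TT_cont lam c0 n t u)).measurable
  have hFb : ∀ V, ‖F V‖ ≤ ‖u‖ := by
    intro V
    by_cases hV : V ∈ G
    · rw [hF, Set.indicator_of_mem hV]
      obtain ⟨ψ, h⟩ := hGd V hV
      exact (pow_norm (con hd1 (gd_free d L)) _ _).trans (tt_norm hd1 h n t u)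
    · rw [hF, Set.indicator_of_notMem hV, norm_zero]
      exact norm_nonneg _
  have hclose : ∀ V ∈ G, ‖ev (HC lam V) t u - F V‖ ≤ 2 * (η + θ) * ‖u‖ := by
    intro V hV
    obtain ⟨ψ, h⟩ := hGd V hV
    rw [hF, Set.indicator_of_mem hV]
    have h1 := dress1 hd1 h (2 * n) θ hθ u hu
    have h2 := dress2 hd1 h n n' θ hθ hnθ t u
    have h3 : TT (HC lam V) (QC lam c0 V) n t u = ev (HC lam V) t ((QC lam c0 V ^ (2 * n)) u) := by
      unfold TT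
      rw [comm_pow_ev (comm_QC lam c0 V), ← pow_apply_add, two_mul]
    have e : ev (HC lam V) t u - (QF d L ^ n') (TT (HC lam V) (QC lam c0 V) n t u) =
        ev (HC lam V) t (u - (QC lam c0 V ^ (2 * n)) u) +
          (TT (HC lam V) (QC lam c0 V) n t u -
            (QF d L ^ n') (TT (HC lam V) (QC lam c0 V) n t u)) := by
      rw [map_sub, ← h3]
      abel
    rw [e]
    refine (norm_add_le _ _).trans ?_
    rw [evn]
    linarith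
  have hpt : ∀ V, ‖ev (HC lam V) t u - m‖ ^ 2 ≤
      (8 * (η + θ) ^ 2 * ‖u‖ ^ 2 + 2 * Gᶜ.indicator (fun _ => ‖u‖ ^ 2) V) +
        2 * ‖F V - m‖ ^ 2 := by
    intro V
    have h1 : ‖ev (HC lam V) t u - m‖ ^ 2 ≤
        2 * ‖ev (HC lam V) t u - F V‖ ^ 2 + 2 * ‖F V - m‖ ^ 2 := by
      have e : ev (HC lam V) t u - m = (ev (HC lam V) t u - F V) + (F V - m) := by abel
      have h2 : ‖ev (HC lam V) t u - m‖ ≤ ‖ev (HC lam V) t u - F V‖ + ‖F V - m‖ := by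
        rw [e]; exact norm_add_le _ _
      have h3 := pow_le_pow_left₀ (norm_nonneg _) h2 2
      nlinarith [sq_nonneg (‖ev (HC lam V) t u - F V‖ - ‖F V - m‖)]
    have h2 : ‖ev (HC lam V) t u - F V‖ ^ 2 ≤
        4 * (η + θ) ^ 2 * ‖u‖ ^ 2 + Gᶜ.indicator (fun _ => ‖u‖ ^ 2) V := by
      by_cases hV : V ∈ G
      · have h3 := pow_le_pow_left₀ (norm_nonneg _) (hclose V hV) 2
        rw [Set.indicator_of_notMem (by simpa using hV), add_zero]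
        refine h3.trans (le_of_eq (by ring))
      · rw [Set.indicator_of_mem (show V ∈ Gᶜ from hV)]
        have h3 : F V = 0 := by rw [hF, Set.indicator_of_notMem hV]
        rw [h3, sub_zero, evn]
        have : 0 ≤ 4 * (η + θ) ^ 2 * ‖u‖ ^ 2 := by positivity
        linarith
    linarith
  have hevc : Continuous fun V : T d L → ℝ => ev (HC lam V) t u :=
    (ev_cont_V lam t).clm_apply continuous_const
  have i1 : Integrable (fun V => ‖ev (HC lam V) t u - m‖ ^ 2) P := by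
    refine Integrable.of_bound (C := (‖u‖ + ‖m‖) ^ 2)
      ((hevc.sub continuous_const).norm.pow 2).aestronglyMeasurable
      (Filter.Eventually.of_forall fun V => ?_)
    rw [Real.norm_eq_abs, abs_of_nonneg (by positivity)]
    refine pow_le_pow_left₀ (norm_nonneg _) ((norm_sub_le _ _).trans ?_) 2
    rw [evn]
  have i2 : Integrable (fun V => ‖F V - m‖ ^ 2) P := by
    refine Integrable.of_bound (C := (‖u‖ + ‖m‖) ^ 2)
      ((hFm.sub measurable_const).norm.pow_const 2).aestronglyMeasurable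
      (Filter.Eventually.of_forall fun V => ?_)
    rw [Real.norm_eq_abs, abs_of_nonneg (by positivity)]
    exact pow_le_pow_left₀ (norm_nonneg _) ((norm_sub_le _ _).trans (by gcongr; exact hFb V)) 2
  have i3 : Integrable (Gᶜ.indicator fun _ : T d L → ℝ => ‖u‖ ^ 2) P :=
    (integrable_const _).indicator hG.compl
  have hval : ∫ V, Gᶜ.indicator (fun _ : T d L → ℝ => ‖u‖ ^ 2) V ∂P = P.real Gᶜ * ‖u‖ ^ 2 := by
    rw [integral_indicator hG.compl, setIntegral_const, smul_eq_mul]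
  have i4 : Integrable (fun V : T d L → ℝ => 8 * (η + θ) ^ 2 * ‖u‖ ^ 2 +
      2 * Gᶜ.indicator (fun _ => ‖u‖ ^ 2) V) P := (integrable_const _).add (i3.const_mul 2)
  have i5 : Integrable (fun V : T d L → ℝ => 2 * ‖F V - m‖ ^ 2) P := i2.const_mul 2
  have h1 := integral_mono i1 (i4.add i5) hpt
  refine h1.trans ?_
  have h2 : ∫ V, ((8 * (η + θ) ^ 2 * ‖u‖ ^ 2 + 2 * Gᶜ.indicator (fun _ => ‖u‖ ^ 2) V) +
      2 * ‖F V - m‖ ^ 2) ∂P = (8 * (η + θ) ^ 2 * ‖u‖ ^ 2 + 2 * (P.real Gᶜ * ‖u‖ ^ 2)) +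
        2 * ∫ V, ‖F V - m‖ ^ 2 ∂P := by
    have c1 : ∫ V, 2 * ‖F V - m‖ ^ 2 ∂P = 2 * ∫ V, ‖F V - m‖ ^ 2 ∂P := integral_const_mul _ _
    have c2 : ∫ V, 2 * Gᶜ.indicator (fun _ : T d L → ℝ => ‖u‖ ^ 2) V ∂P =
        2 * ∫ V, Gᶜ.indicator (fun _ : T d L → ℝ => ‖u‖ ^ 2) V ∂P := integral_const_mul _ _
    rw [integral_add i4 i5, integral_add (integrable_const _) (i3.const_mul 2), c1, c2, hval]
    simp
  refine (le_of_eq h2).trans ?_
  have hLd : (1 : ℝ) ≤ (L : ℝ) ^ d := one_le_pow₀ (L_one (L := L))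
  have hPG : 0 ≤ P.real Gᶜ := measureReal_nonneg
  have h4 : P.real Gᶜ * ‖u‖ ^ 2 ≤ (L : ℝ) ^ d * P.real Gᶜ * ‖u‖ ^ 2 := by
    have : 0 ≤ P.real Gᶜ * ‖u‖ ^ 2 := by positivity
    nlinarith
  have e5 : C * (lam * (n + |t|) * ‖u‖) ^ 2 / (n' : ℝ) ^ ((d : ℝ) / 2) =
      C * (lam * (n + |t|)) ^ 2 / (n' : ℝ) ^ ((d : ℝ) / 2) * ‖u‖ ^ 2 := by ring
  rw [e5] at hm
  calc (8 * (η + θ) ^ 2 * ‖u‖ ^ 2 + 2 * (P.real Gᶜ * ‖u‖ ^ 2)) + 2 * ∫ V, ‖F V - m‖ ^ 2 ∂P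
      ≤ (8 * (η + θ) ^ 2 * ‖u‖ ^ 2 + 2 * ((L : ℝ) ^ d * P.real Gᶜ * ‖u‖ ^ 2)) +
        2 * (C * (lam * (n + |t|)) ^ 2 / (n' : ℝ) ^ ((d : ℝ) / 2) * ‖u‖ ^ 2 +
        2 * (L : ℝ) ^ d * P.real Gᶜ * ‖u‖ ^ 2) := by gcongr
    _ = _ := by ring

end Pool.Agent.V8H95.MF
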