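import Pool.Agent.V8H95.MF.Sens
import Pool.Agent.V8H95.MF.ESm

/-!
Variance of the smoothed propagator on the torus.
-/

set_option autoImplicit false
set_option linter.unusedSectionVars false

open Complex MeasureTheory
open scoped BigOperators ComplexConjugate

namespace Pool.Agent.V8H95.MF

open Pool.Agent.H4R2.AE Pool.Agent.V8H99.AD

/-- resampling one coordinate preserves the law -/
theorem update_law (m : Type) [Fintype m] [DecidableEq m] (μ : Measure ℝ) [IsProbabilityMeasure μ]
    (y : m) : MeasurePreserving (fun p : ℝ × (m → ℝ) => Function.update p.2 y p.1)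
      (μ.prod (Measure.pi fun _ : m => μ)) (Measure.pi fun _ : m => μ) := by
  have hm : Measurable fun p : ℝ × (m → ℝ) => Function.update p.2 y p.1 := by
    refine measurable_pi_lambda _ fun x => ?_
    by_cases h : x = y
    · subst h
      simp only [Function.update_self]
      exact measurable_fst
    · simp only [Function.update_of_ne h]
      exact (measurable_pi_apply x).comp measurable_snd
  refine ⟨hm, (Measure.pi_eq fun A hA => ?_).symm⟩
  rw [Measure.map_apply hm (MeasurableSet.univ_pi hA)]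
  have h1 : (fun p : ℝ × (m → ℝ) => Function.update p.2 y p.1) ⁻¹' Set.univ.pi A =
      A y ×ˢ Set.univ.pi (Function.update A y Set.univ) := by
    ext p
    simp only [Set.mem_preimage, Set.mem_pi, Set.mem_univ, forall_true_left, Set.mem_prod]
    constructor
    · intro h
      refine ⟨by simpa using h y, fun x => ?_⟩
      by_cases hx : x = y
      · subst hx; simp
      · rw [Function.update_of_ne hx]
        have := h x
        rwa [Function.update_of_ne hx] at this
    · rintro ⟨h2, h3⟩ x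
      by_cases hx : x = y
      · subst hx; simpa using h2
      · rw [Function.update_of_ne hx]
        have := h3 x
        rwa [Function.update_of_ne hx] at this
  rw [h1, Measure.prod_prod, Measure.pi_pi]
  rw [← Finset.mul_prod_erase Finset.univ (fun x => μ (A x)) (Finset.mem_univ y),
    ← Finset.mul_prod_erase Finset.univ (fun x => μ (Function.update A y Set.univ x))
      (Finset.mem_univ y)]
  rw [Function.update_self, measure_univ, one_mul]
  congr 1
  refine Finset.prod_congr rfl fun x hx => ?_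
  rw [Function.update_of_ne (Finset.ne_of_mem_erase hx)]

variable {d L : ℕ} [NeZero L]

theorem HC_split (lam : ℝ) (V : T d L → ℝ) : (HC lam V : XT d L →L[ℂ] XT d L) =
    HC 0 (0 : T d L → ℝ) + ∑ w, ((lam * V w : ℝ) : ℂ) • Mu (Pi.single w 1) := by
  ext f x
  show (HC lam V f) x = ((HC 0 (0 : T d L → ℝ) f) + (∑ w, ((lam * V w : ℝ) : ℂ) •
    Mu (Pi.single w 1)) f) x
  rw [PiLp.add_apply, HC_apply, HC_apply, sum_apply, WithLp.ofLp_sum,
    Finset.sum_apply, Finset.sum_eq_single x]
  · show _ = _ + ((lam * V x : ℝ) : ℂ) * (Mu (Pi.single x 1) f) x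
    rw [Mu_apply]
    simp
  · intro y _ hy
    show ((lam * V y : ℝ) : ℂ) * (Mu (Pi.single y 1) f) x = 0
    rw [Mu_apply, Pi.single_eq_of_ne (Ne.symm hy)]
    simp
  · intro h
    exact absurd (Finset.mem_univ _) h

theorem HC_cont (lam : ℝ) : Continuous fun V : T d L → ℝ => (HC lam V : XT d L →L[ℂ] XT d L) := by
  have e : (fun V : T d L → ℝ => (HC lam V : XT d L →L[ℂ] XT d L)) = fun V =>
      HC 0 (0 : T d L → ℝ) + ∑ w, ((lam * V w : ℝ) : ℂ) • Mu (Pi.single w 1) :=
    funext fun V => HC_split lam V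
  rw [e]
  refine continuous_const.add (continuous_finsetSum _ fun w _ => ?_)
  exact (Complex.continuous_ofReal.comp (continuous_const.mul (continuous_apply w))).smul
    continuous_const

theorem ev_cont_V (lam t : ℝ) :
    Continuous fun V : T d L → ℝ => (ev (HC lam V) t : XT d L →L[ℂ] XT d L) := by
  unfold ev
  let _ : NormedAlgebra ℚ (XT d L →L[ℂ] XT d L) := NormedAlgebra.restrictScalars ℚ ℂ _
  exact NormedSpace.exp_continuous.comp ((HC_cont lam).const_smul (-(t : ℂ) * Complex.I))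

theorem QC_cont (lam c0 : ℝ) :
    Continuous fun V : T d L → ℝ => (QC lam c0 V : XT d L →L[ℂ] XT d L) := by
  unfold QC
  have h1 : Continuous fun V : T d L → ℝ =>
      ((HC lam V : XT d L →L[ℂ] XT d L) - ((c0 : ℝ) : ℂ) • 1) := (HC_cont lam).sub continuous_const
  exact continuous_const.sub (h1.const_smul (((1 / bb d : ℝ) : ℂ)))

theorem TT_cont (lam c0 : ℝ) (n : ℕ) (t : ℝ) (u : XT d L) :
    Continuous fun V : T d L → ℝ => TT (HC lam V) (QC lam c0 V) n t u := by
  unfold TT
  exact ((QC_cont lam c0).pow n).clm_apply ((ev_cont_V lam t).clm_apply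
    (((QC_cont lam c0).pow n).clm_apply continuous_const))

/-- the variance bound on the torus -/
theorem var_torus (d : ℕ) (hd : 3 ≤ d) : ∃ C : ℝ, 1 ≤ C ∧ ∀ (L : ℕ) [NeZero L] (lam c0 η : ℝ)
    (μ : Measure ℝ) [IsProbabilityMeasure μ], (∀ᵐ s ∂μ, |s| ≤ 1) → ∀ G : Set (T d L → ℝ),
    MeasurableSet G → (∀ V ∈ G, ∃ (E0 : ℝ) (ψ : T d L → ℝ), Gd lam c0 η E0 V ψ) →
    ∀ n n' : ℕ, 1 ≤ n' → n' ≤ n → ∀ (u : XT d L) (t : ℝ), ∃ m : XT d L,
      ∫ V, ‖G.indicator (fun V => (QF d L ^ n') (TT (HC lam V) (QC lam c0 V) n t u)) V - m‖ ^ 2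
        ∂(Measure.pi fun _ : T d L => μ) ≤
      C * (lam * (n + |t|) * ‖u‖) ^ 2 / (n' : ℝ) ^ ((d : ℝ) / 2) +
        2 * (L : ℝ) ^ d * (Measure.pi fun _ : T d L => μ).real Gᶜ * ‖u‖ ^ 2 := by
  obtain ⟨C, hC, H⟩ := sum_diff d hd
  refine ⟨C, hC, ?_⟩
  intro L _ lam c0 η μ _ hμ G hG hGd n n' hn' hnn u t
  have hd1 : 1 ≤ d := by omega
  set P : Measure (T d L → ℝ) := Measure.pi fun _ : T d L => μ with hP
  set F : (T d L → ℝ) → XT d L :=
    G.indicator (fun V => (QF d L ^ n') (TT (HC lam V) (QC lam c0 V) n t u)) with hF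
  have hFm : Measurable F := by
    refine Measurable.indicator ?_ hG
    exact ((QF d L ^ n').continuous.comp (TT_cont lam c0 n t u)).measurable
  have hFb : ∀ V, ‖F V‖ ≤ ‖u‖ := by
    intro V
    by_cases hV : V ∈ G
    · rw [hF, Set.indicator_of_mem hV]
      obtain ⟨E0, ψ, h⟩ := hGd V hV
      exact (pow_norm (con hd1 (gd_free d L)) _ _).trans (tt_norm hd1 h n t u)
    · rw [hF, Set.indicator_of_notMem hV, norm_zero]
      exact norm_nonneg _
  have hFx : ∀ x, Measurable fun V => F V x := fun x =>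
    ((PiLp.continuous_apply 2 _ x).measurable).comp hFm
  have hFxb : ∀ x V, ‖F V x‖ ≤ ‖u‖ := fun x V => (PiLp.norm_apply_le _ _).trans (hFb V)
  set m : XT d L := WithLp.toLp 2 fun x => ∫ V, F V x ∂P with hm
  refine ⟨m, ?_⟩
  have hn0 : (0 : ℝ) < n' := by exact_mod_cast hn'
  have hD0 : 0 < (n' : ℝ) ^ ((d : ℝ) / 2) := Real.rpow_pos_of_pos hn0 _
  set M : ℝ := C * (lam * (n + |t|) * ‖u‖) ^ 2 / (n' : ℝ) ^ ((d : ℝ) / 2) with hM
  have hM0 : 0 ≤ M := by positivity
  -- for each `s`
  have step1 : ∀ s : ℝ, ∫ V, ‖F V - m‖ ^ 2 ∂P ≤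
      ∑ w, ∫ V, ‖F V - F (Function.update V w s)‖ ^ 2 ∂P := by
    intro s
    have i1 : ∀ x, Integrable (fun V => ‖F V x - m x‖ ^ 2) P := fun x =>
      ES.int_sq P (fun V => F V x - m x) ((hFx x).sub measurable_const).aestronglyMeasurable
        (‖u‖ + ‖m x‖) fun V => (norm_sub_le _ _).trans (by gcongr; exact hFxb x V)
    have i2 : ∀ w x, Integrable (fun V => ‖F V x - F (Function.update V w s) x‖ ^ 2) P := fun w x =>
      ES.int_sq P (fun V => F V x - F (Function.update V w s) x)
        ((hFx x).sub ((hFx x).comp (ES.update_meas w s))).aestronglyMeasurable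
        (‖u‖ + ‖u‖) fun V => (norm_sub_le _ _).trans (add_le_add (hFxb x V) (hFxb x _))
    have e1 : ∫ V, ‖F V - m‖ ^ 2 ∂P = ∑ x, ∫ V, ‖F V x - m x‖ ^ 2 ∂P := by
      rw [← integral_finsetSum _ fun x _ => i1 x]
      refine integral_congr_ae (Filter.Eventually.of_forall fun V => ?_)
      show ‖F V - m‖ ^ 2 = ∑ x, ‖F V x - m x‖ ^ 2
      rw [EuclideanSpace.norm_sq_eq]
      rfl
    have e2 : ∀ w, ∫ V, ‖F V - F (Function.update V w s)‖ ^ 2 ∂P =
        ∑ x, ∫ V, ‖F V x - F (Function.update V w s) x‖ ^ 2 ∂P := by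
      intro w
      rw [← integral_finsetSum _ fun x _ => i2 w x]
      refine integral_congr_ae (Filter.Eventually.of_forall fun V => ?_)
      show ‖F V - F (Function.update V w s)‖ ^ 2 = ∑ x, ‖F V x - F (Function.update V w s) x‖ ^ 2
      rw [EuclideanSpace.norm_sq_eq]
      rfl
    rw [e1]
    simp only [e2]
    rw [Finset.sum_comm]
    exact Finset.sum_le_sum fun x _ => ES.es (T d L) μ s (fun V => F V x) (hFx x) ‖u‖ (hFxb x)
  -- pointwise
  have step2 : ∀ s : ℝ, |s| ≤ 1 → ∀ V, ∑ w, ‖F V - F (Function.update V w s)‖ ^ 2 ≤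
      M + ∑ w, (Gᶜ.indicator (fun _ => ‖u‖ ^ 2) V +
        Gᶜ.indicator (fun _ => ‖u‖ ^ 2) (Function.update V w s)) := by
    intro s hs V
    by_cases hV : V ∈ G
    · obtain ⟨E0, ψ, h⟩ := hGd V hV
      classical
      have h1 := H L lam c0 η E0 V ψ h s hs n n' hn' hnn
        (Finset.univ.filter fun w => Function.update V w s ∈ G) (fun w hw =>
          hGd _ (Finset.mem_filter.1 hw).2) u t
      rw [← le_div_iff₀ hD0] at h1
      rw [← Finset.sum_filter_add_sum_filter_not Finset.univ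
        (fun w => Function.update V w s ∈ G) fun w => ‖F V - F (Function.update V w s)‖ ^ 2]
      refine add_le_add ?_ ?_
      · refine le_trans (Finset.sum_le_sum fun w hw => ?_) h1
        rw [hF, Set.indicator_of_mem hV, Set.indicator_of_mem (Finset.mem_filter.1 hw).2,
          norm_sub_rev]
      · refine le_trans (Finset.sum_le_sum (g := fun w => Gᶜ.indicator (fun _ => ‖u‖ ^ 2) V +
          Gᶜ.indicator (fun _ => ‖u‖ ^ 2) (Function.update V w s)) fun w hw => ?_) ?_
        · have h2 : Function.update V w s ∈ Gᶜ := (Finset.mem_filter.1 hw).2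
          rw [Set.indicator_of_mem h2, Set.indicator_of_notMem (by simpa using hV), zero_add]
          have h3 : F (Function.update V w s) = 0 := by
            rw [hF, Set.indicator_of_notMem h2]
          rw [h3, sub_zero]
          exact pow_le_pow_left₀ (norm_nonneg _) (hFb V) 2
        · refine Finset.sum_le_sum_of_subset_of_nonneg (Finset.filter_subset _ _) fun w _ _ => ?_
          refine add_nonneg ?_ ?_ <;>
          exact Set.indicator_nonneg (fun _ _ => by positivity) _
    · have h3 : F V = 0 := by rw [hF, Set.indicator_of_notMem hV]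
      rw [h3]
      refine le_trans ?_ (le_add_of_nonneg_left hM0)
      refine Finset.sum_le_sum fun w _ => ?_
      rw [Set.indicator_of_mem (show V ∈ Gᶜ from hV), zero_sub, norm_neg]
      have h4 := pow_le_pow_left₀ (norm_nonneg _) (hFb (Function.update V w s)) 2
      have h5 : 0 ≤ Gᶜ.indicator (fun _ => ‖u‖ ^ 2) (Function.update V w s) :=
        Set.indicator_nonneg (fun _ _ => by positivity) _
      linarith
  -- integrate over `s`
  set Φ : ℝ × (T d L → ℝ) → ℝ := fun p => ∑ w, ‖F p.2 - F (Function.update p.2 w p.1)‖ ^ 2 with hΦ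
  have hup : ∀ w, Measurable fun p : ℝ × (T d L → ℝ) => Function.update p.2 w p.1 := fun w =>
    (update_law (T d L) μ w).measurable
  have i3 : ∀ w, Integrable (fun p : ℝ × (T d L → ℝ) =>
      ‖F p.2 - F (Function.update p.2 w p.1)‖ ^ 2) (μ.prod P) := by
    intro w
    refine Integrable.of_bound (C := (‖u‖ + ‖u‖) ^ 2) ?_ (Filter.Eventually.of_forall fun p => ?_)
    · exact (((hFm.comp measurable_snd).sub (hFm.comp (hup w))).norm.pow_const 2).aestronglyMeasurable
    · rw [Real.norm_eq_abs, abs_of_nonneg (by positivity)]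
      exact pow_le_pow_left₀ (norm_nonneg _) ((norm_sub_le _ _).trans
        (add_le_add (hFb _) (hFb _))) 2
  have i4 : Integrable Φ (μ.prod P) := integrable_finsetSum _ fun w _ => i3 w
  have hind : Measurable (Gᶜ.indicator fun _ : T d L → ℝ => ‖u‖ ^ 2) :=
    measurable_const.indicator hG.compl
  have hib : ∀ V, ‖Gᶜ.indicator (fun _ : T d L → ℝ => ‖u‖ ^ 2) V‖ ≤ ‖u‖ ^ 2 := by
    intro V
    refine (norm_indicator_le_norm_self _ _).trans ?_
    rw [Real.norm_eq_abs, abs_of_nonneg (by positivity)]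
  have i5 : Integrable (Gᶜ.indicator fun _ : T d L → ℝ => ‖u‖ ^ 2) P :=
    Integrable.of_bound hind.aestronglyMeasurable _ (Filter.Eventually.of_forall hib)
  have i6 : Integrable (fun p : ℝ × (T d L → ℝ) => Gᶜ.indicator (fun _ => ‖u‖ ^ 2) p.2)
      (μ.prod P) := Integrable.of_bound (hind.comp measurable_snd).aestronglyMeasurable _
        (Filter.Eventually.of_forall fun p => hib _)
  have i7 : ∀ w, Integrable (fun p : ℝ × (T d L → ℝ) =>
      Gᶜ.indicator (fun _ => ‖u‖ ^ 2) (Function.update p.2 w p.1)) (μ.prod P) := fun w =>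
    Integrable.of_bound (hind.comp (hup w)).aestronglyMeasurable _
        (Filter.Eventually.of_forall fun p => hib _)
  have hval : ∫ V, Gᶜ.indicator (fun _ : T d L → ℝ => ‖u‖ ^ 2) V ∂P = P.real Gᶜ * ‖u‖ ^ 2 := by
    rw [integral_indicator hG.compl, setIntegral_const, smul_eq_mul]
  have step3 : ∫ V, ‖F V - m‖ ^ 2 ∂P ≤ ∫ p, Φ p ∂(μ.prod P) := by
    rw [integral_prod _ i4]
    have : ∀ s, ∫ V, ‖F V - m‖ ^ 2 ∂P ≤ ∫ V, Φ (s, V) ∂P := by
      intro s
      have h1 := step1 s
      rw [← integral_finsetSum _ fun w _ => ?_] at h1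
      · exact h1
      · refine Integrable.of_bound (C := (‖u‖ + ‖u‖) ^ 2) ?_
          (Filter.Eventually.of_forall fun V => ?_)
        · exact ((hFm.sub (hFm.comp (ES.update_meas w s))).norm.pow_const 2).aestronglyMeasurable
        · rw [Real.norm_eq_abs, abs_of_nonneg (by positivity)]
          exact pow_le_pow_left₀ (norm_nonneg _) ((norm_sub_le _ _).trans
            (add_le_add (hFb _) (hFb _))) 2
    calc ∫ V, ‖F V - m‖ ^ 2 ∂P = ∫ _s : ℝ, (∫ V, ‖F V - m‖ ^ 2 ∂P) ∂μ := by simp
      _ ≤ _ := integral_mono (integrable_const _) i4.integral_prod_left this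
  have step4 : ∫ p, Φ p ∂(μ.prod P) ≤ ∫ p : ℝ × (T d L → ℝ), (M + ∑ w : T d L,
      (Gᶜ.indicator (fun _ => ‖u‖ ^ 2) p.2 +
        Gᶜ.indicator (fun _ => ‖u‖ ^ 2) (Function.update p.2 w p.1))) ∂(μ.prod P) := by
    refine integral_mono_ae i4 ((integrable_const _).add
      (integrable_finsetSum _ fun w _ => i6.add (i7 w))) ?_
    have h1 : ∀ᵐ p : ℝ × (T d L → ℝ) ∂(μ.prod P), |p.1| ≤ 1 :=
      (measurePreserving_fst (μ := μ) (ν := P)).quasiMeasurePreserving.ae hμ
    filter_upwards [h1] with p hp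
    exact step2 p.1 hp p.2
  refine step3.trans (step4.trans (le_of_eq ?_))
  have i8 : ∀ w : T d L, Integrable (fun p : ℝ × (T d L → ℝ) =>
      Gᶜ.indicator (fun _ => ‖u‖ ^ 2) p.2 +
        Gᶜ.indicator (fun _ => ‖u‖ ^ 2) (Function.update p.2 w p.1)) (μ.prod P) :=
    fun w => i6.add (i7 w)
  rw [integral_add (integrable_const _) (integrable_finsetSum _ fun w _ => i8 w),
    integral_finsetSum _ fun w _ => i8 w]
  have h6 : ∀ w : T d L, ∫ p : ℝ × (T d L → ℝ), (Gᶜ.indicator (fun _ => ‖u‖ ^ 2) p.2 +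
        Gᶜ.indicator (fun _ => ‖u‖ ^ 2) (Function.update p.2 w p.1)) ∂(μ.prod P) =
      2 * (P.real Gᶜ * ‖u‖ ^ 2) := by
    intro w
    rw [integral_add i6 (i7 w)]
    have a1 : ∫ p : ℝ × (T d L → ℝ), Gᶜ.indicator (fun _ => ‖u‖ ^ 2) p.2 ∂(μ.prod P) =
        P.real Gᶜ * ‖u‖ ^ 2 := by
      rw [← hval]
      have h := (measurePreserving_snd (μ := μ) (ν := P))
      rw [← h.map_eq, integral_map h.measurable.aemeasurable]
      · rw [h.map_eq]
      · rw [h.map_eq]; exact hind.aestronglyMeasurable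
    have a2 : ∫ p : ℝ × (T d L → ℝ), Gᶜ.indicator (fun _ => ‖u‖ ^ 2)
        (Function.update p.2 w p.1) ∂(μ.prod P) = P.real Gᶜ * ‖u‖ ^ 2 := by
      rw [← hval]
      have h := update_law (T d L) μ w
      have h2 := integral_map (μ := μ.prod P) h.measurable.aemeasurable
        (f := Gᶜ.indicator (fun _ => ‖u‖ ^ 2)) (by
          rw [h.map_eq]; exact hind.aestronglyMeasurable)
      rw [h.map_eq] at h2
      exact h2.symm
    rw [a1, a2]
    ring
  simp only [h6]
  have hcard : (Fintype.card (T d L) : ℝ) = (L : ℝ) ^ d := by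
    simp [T, Fintype.card_pi, ZMod.card]
  rw [Finset.sum_const, Finset.card_univ, nsmul_eq_mul, hcard]
  simp
  ring

end Pool.Agent.V8H95.MF
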